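import Pool.Agent.Lib.MP_e005b4_ag.Sec.Basic

/-!
# Varieties given by a parametrization
-/

set_option autoImplicit false

namespace Pool.Agent.Lib.MP_e005b4_ag

open MvPolynomial Matrix
open scoped LinearAlgebra.Projectivization

/-- A form which vanishes along a punctured polynomial curve vanishes at its centre. -/
theorem limit_zero {ι : Type} (F : MvPolynomial ι ℂ) (q : ι → Polynomial ℂ)
    (h : ∀ ε : ℂ, ε ≠ 0 → eval (fun i => (q i).eval ε) F = 0) : eval (fun i => (q i).eval 0) F = 0 := by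
  have h1 : ∀ ε : ℂ, (MvPolynomial.aeval q F).eval ε = eval (fun i => (q i).eval ε) F := by
    intro ε
    have h2 := MvPolynomial.eval₂_comp_left (Polynomial.evalRingHom ε) (algebraMap ℂ (Polynomial ℂ)) q F
    rw [MvPolynomial.aeval_def]
    rw [Polynomial.coe_evalRingHom] at h2
    rw [h2]
    have h3 : (Polynomial.evalRingHom ε).comp (algebraMap ℂ (Polynomial ℂ)) = RingHom.id ℂ := by
      ext x
      simp
    rw [h3]
    rfl
  have h2 : MvPolynomial.aeval q F = 0 := by
    apply Polynomial.eq_zero_of_infinite_isRoot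
    refine Set.Infinite.mono (s := {ε : ℂ | ε ≠ 0}) ?_ ?_
    · intro ε hε
      show (MvPolynomial.aeval q F).eval ε = 0
      rw [h1]
      exact h ε hε
    · exact (Set.finite_singleton (0 : ℂ)).infinite_compl
  rw [← h1, h2, Polynomial.eval_zero]

variable {ι : Type} [Fintype ι]

theorem mem_cone_setOf {P : (ι → ℂ) → Prop} (h0 : P 0) (hs : ∀ (c : ℂ) (w : ι → ℂ), P w → P (c • w))
    {w : ι → ℂ} : w ∈ cone {p : PSpace ι | P p.rep} ↔ P w := by
  by_cases hw : w = 0
  · rw [hw]
    exact ⟨fun _ => h0, fun _ => zero_mem_cone _⟩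
  · rw [mem_cone_iff hw]
    obtain ⟨c, hc, he⟩ := rep_eq w hw
    show P _ ↔ P w
    rw [he]
    constructor
    · intro h
      have h1 := hs c⁻¹ _ h
      rwa [smul_smul, inv_mul_cancel₀ hc, one_smul] at h1
    · exact hs c w

theorem irred_of_param {X : Set (PSpace ι)} (hne : X.Nonempty) {σ : Type} (φ : ι → MvPolynomial σ ℂ)
    (h1 : ∀ x : σ → ℂ, (fun i => eval x (φ i)) ∈ cone X)
    (h2 : ∀ (F : MvPolynomial ι ℂ) (d : ℕ), F.IsHomogeneous d →
      (∀ x : σ → ℂ, eval (fun i => eval x (φ i)) F = 0) → ∀ p ∈ X, eval p.rep F = 0) : IsIrred X := by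
  refine ⟨hne, fun F G d e hF hG hFG => ?_⟩
  have h3 : ∀ (H : MvPolynomial ι ℂ) (x : σ → ℂ), eval x (bind₁ φ H) = eval (fun i => eval x (φ i)) H := by
    intro H x
    exact MvPolynomial.eval₂Hom_bind₁ (RingHom.id ℂ) x φ H
  have h4 : bind₁ φ F * bind₁ φ G = 0 := by
    apply MvPolynomial.funext
    intro x
    rw [map_mul, h3, h3, map_zero, ← map_mul]
    refine vanish_on_cone hne (hF.mul hG) (fun p hp => ?_) _ (h1 x)
    rw [map_mul]
    exact hFG p hp
  rcases mul_eq_zero.1 h4 with h5 | h5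
  · left
    exact h2 F d hF fun x => by rw [← h3, h5, map_zero]
  · right
    exact h2 G e hG fun x => by rw [← h3, h5, map_zero]

end Pool.Agent.Lib.MP_e005b4_ag
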