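import Pool.Agent.Lib.MP_e005b4_ag.Sec.Segre
import Pool.Agent.Lib.MP_e005b4_ag.Sec.Var

/-!
# Hyperplane sections of Segre varieties: the variety
-/

set_option autoImplicit false

namespace Pool.Agent.Lib.MP_e005b4_ag

open MvPolynomial Matrix
open scoped LinearAlgebra.Projectivization

/-- The section of the Segre variety by the hyperplane `B`: the points `[u ⊗ v]` with
`∑ B i j u i v j = 0`. -/
def segreSec {m n : ℕ} (B : Matrix (Fin m) (Fin n) ℂ) : Set (PSpace (Fin m × Fin n)) :=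
  {p | ∃ (u : Fin m → ℂ) (v : Fin n → ℂ), (∀ i j, p.rep (i, j) = u i * v j) ∧
    ∑ i, ∑ j, B i j * (u i * v j) = 0}

theorem mem_cone_segreSec {m n : ℕ} {B : Matrix (Fin m) (Fin n) ℂ} {w : Fin m × Fin n → ℂ} :
    w ∈ cone (segreSec B) ↔ ∃ (u : Fin m → ℂ) (v : Fin n → ℂ), (∀ i j, w (i, j) = u i * v j) ∧
      ∑ i, ∑ j, B i j * (u i * v j) = 0 := by
  refine mem_cone_setOf (P := fun w => ∃ (u : Fin m → ℂ) (v : Fin n → ℂ), (∀ i j, w (i, j) = u i * v j) ∧
      ∑ i, ∑ j, B i j * (u i * v j) = 0) ?_ ?_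
  · exact ⟨0, 0, fun i j => by simp, by simp⟩
  · rintro c w ⟨u, v, h1, h2⟩
    refine ⟨c • u, v, fun i j => ?_, ?_⟩
    · rw [Pi.smul_apply, Pi.smul_apply, h1, smul_eq_mul, smul_eq_mul, mul_assoc]
    · have h3 : ∀ i j, B i j * ((c • u) i * v j) = c * (B i j * (u i * v j)) := by
        intro i j
        rw [Pi.smul_apply, smul_eq_mul]
        ring
      simp only [h3, ← Finset.mul_sum]
      rw [h2, mul_zero]

theorem segreSec_lin {m n : ℕ} (B : Matrix (Fin m) (Fin n) ℂ) (u : Fin m → ℂ) (v : Fin n → ℂ) :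
    ∑ i, ∑ j, B i j * (u i * v j) = v ⬝ᵥ (Bᵀ *ᵥ u) := by
  rw [Finset.sum_comm, dotProduct]
  refine Finset.sum_congr rfl fun j _ => ?_
  rw [Matrix.mulVec, dotProduct, Finset.mul_sum]
  refine Finset.sum_congr rfl fun i _ => ?_
  rw [Matrix.transpose_apply]
  ring

theorem segreSec_closed {m n : ℕ} (B : Matrix (Fin m) (Fin n) ℂ) : IsZariskiClosed (segreSec B) := by
  refine ⟨{F | (∃ (i i' : Fin m) (j j' : Fin n), F = X (i, j) * X (i', j') - X (i, j') * X (i', j)) ∨
    F = ∑ i, ∑ j, C (B i j) * X (i, j)}, ?_, fun p => ?_⟩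
  · rintro F (⟨i, i', j, j', rfl⟩ | rfl)
    · exact ⟨2, ((isHomogeneous_X ℂ _).mul (isHomogeneous_X ℂ _)).sub
        ((isHomogeneous_X ℂ _).mul (isHomogeneous_X ℂ _))⟩
    · refine ⟨1, IsHomogeneous.sum _ _ _ fun i _ => IsHomogeneous.sum _ _ _ fun j _ => ?_⟩
      have h2 := (isHomogeneous_C (Fin m × Fin n) (B i j)).mul (isHomogeneous_X ℂ (i, j))
      rwa [zero_add] at h2
  · constructor
    · rintro ⟨u, v, h1, h2⟩ F (⟨i, i', j, j', rfl⟩ | rfl)
      · simp only [map_sub, map_mul, eval_X, h1]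
        ring
      · simp only [map_sum, map_mul, eval_C, eval_X, h1]
        exact h2
    · intro h
      have hex : ∃ i0 j0, p.rep (i0, j0) ≠ 0 := by
        by_contra hno
        push Not at hno
        apply p.rep_nonzero
        funext ⟨i, j⟩
        exact hno i j
      obtain ⟨i0, j0, h0⟩ := hex
      have h1 : ∀ i j, p.rep (i, j) = p.rep (i, j0) * (p.rep (i0, j) / p.rep (i0, j0)) := by
        intro i j
        have h2 := h _ (Or.inl ⟨i, i0, j, j0, rfl⟩)
        simp only [map_sub, map_mul, eval_X] at h2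
        field_simp
        linear_combination h2
      refine ⟨fun i => p.rep (i, j0), fun j => p.rep (i0, j) / p.rep (i0, j0), h1, ?_⟩
      have h2 := h _ (Or.inr rfl)
      simp only [map_sum, map_mul, eval_C, eval_X] at h2
      rw [← h2]
      exact Finset.sum_congr rfl fun i _ => Finset.sum_congr rfl fun j _ => by rw [← h1]

theorem mat_rank_add_le {m n : ℕ} (A B : Matrix (Fin m) (Fin n) ℂ) :
    (A + B).rank ≤ A.rank + B.rank := by
  unfold Matrix.rank
  refine le_trans (Submodule.finrank_mono ?_) (Submodule.finrank_add_le_finrank_add_finrank _ _)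
  rintro _ ⟨x, rfl⟩
  rw [Matrix.mulVecLin_apply, Matrix.add_mulVec]
  exact Submodule.add_mem_sup ⟨x, rfl⟩ ⟨x, rfl⟩

/-- The property of the sections of Segre varieties. -/
theorem segreSec_rank {m n : ℕ} (B : Matrix (Fin m) (Fin n) ℂ) (p : PSpace (Fin m × Fin n)) :
    xRank (segreSec B) p = xBorderRank (segreSec B) p := by
  apply rank_eq_of_secant
  intro r q hq
  have h1 : (mat q.rep).rank ≤ r := by
    refine rank_le_of_closure (fun q' hq' => ?_) hq
    obtain ⟨z, hz, hsum⟩ := exists_sum_of_mem_secantSet hq'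
    rw [hsum, mat_sum]
    have h2 : ∀ s : Finset (Fin r), (∑ k ∈ s, mat (z k)).rank ≤ s.card := by
      classical
      intro s
      induction s using Finset.induction_on with
      | empty => simp
      | insert k s hk ih =>
        rw [Finset.sum_insert hk, Finset.card_insert_of_notMem hk]
        refine (mat_rank_add_le _ _).trans ?_
        have h3 : (mat (z k)).rank ≤ 1 := by
          obtain ⟨u, v, h4, -⟩ := mem_cone_segreSec.1 (hz k)
          have h5 : mat (z k) = vecMulVec u v := by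
            ext i j
            exact h4 i j
          rw [h5]
          exact Matrix.rank_vecMulVec_le u v
        omega
    have h3 := h2 Finset.univ
    rwa [Finset.card_univ, Fintype.card_fin] at h3
  have h2 : ∑ ij : Fin m × Fin n, B ij.1 ij.2 * q.rep ij = 0 := by
    classical
    refine linear_of_closure (fun ij => B ij.1 ij.2) (fun q' hq' => ?_) hq
    obtain ⟨z, hz, hsum⟩ := exists_sum_of_mem_secantSet hq'
    rw [hsum]
    simp only [Finset.sum_apply, Finset.mul_sum]
    rw [Finset.sum_comm]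
    refine Finset.sum_eq_zero fun k _ => ?_
    obtain ⟨u, v, h4, h5⟩ := mem_cone_segreSec.1 (hz k)
    rw [Fintype.sum_prod_type, ← h5]
    exact Finset.sum_congr rfl fun i _ => Finset.sum_congr rfl fun j _ => by rw [h4]
  have h3 : (mat q.rep * Bᵀ).trace = 0 := by
    rw [← h2, Fintype.sum_prod_type, Matrix.trace]
    refine Finset.sum_congr rfl fun i _ => ?_
    rw [Matrix.diag_apply, Matrix.mul_apply]
    refine Finset.sum_congr rfl fun j _ => ?_
    rw [Matrix.transpose_apply, mul_comm]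
    rfl
  obtain ⟨u, v, huv, hsum⟩ := segre_decomp Bᵀ r (mat q.rep) h1 h3
  refine mem_secantSet_of_sum' (fun k ij => u k ij.1 * v k ij.2) (fun k => ?_) q ?_
  · rw [mem_cone_segreSec]
    exact ⟨u k, v k, fun i j => rfl, by rw [segreSec_lin]; exact huv k⟩
  · funext ⟨i, j⟩
    have h4 := congrFun (congrFun hsum i) j
    rw [Matrix.sum_apply] at h4
    rw [Finset.sum_apply]
    exact h4

theorem skew_solve {n : ℕ} (b v : Fin n → ℂ) (hb : b ≠ 0) (hv : v ⬝ᵥ b = 0) :
    ∃ k : Fin n → Fin n → ℂ, ∀ j, v j = ∑ l, (k j l - k l j) * b l := by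
  obtain ⟨l0, hl0⟩ := Function.ne_iff.mp hb
  have hl0' : b l0 ≠ 0 := hl0
  refine ⟨fun j l => v j * (Pi.single l0 (b l0)⁻¹ : Fin n → ℂ) l, fun j => ?_⟩
  have h1 : ∀ l, (v j * (Pi.single l0 (b l0)⁻¹ : Fin n → ℂ) l - v l * (Pi.single l0 (b l0)⁻¹ : Fin n → ℂ) j) * b l
      = v j * ((Pi.single l0 (b l0)⁻¹ : Fin n → ℂ) l * b l) -
        (Pi.single l0 (b l0)⁻¹ : Fin n → ℂ) j * (v l * b l) := by
    intro l
    ring
  simp only [h1]
  rw [Finset.sum_sub_distrib, ← Finset.mul_sum, ← Finset.mul_sum]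
  have h2 : ∑ l, (Pi.single l0 (b l0)⁻¹ : Fin n → ℂ) l * b l = 1 := by
    rw [Finset.sum_eq_single l0]
    · rw [Pi.single_eq_same, inv_mul_cancel₀ hl0']
    · intro l _ hl
      rw [Pi.single_eq_of_ne hl, zero_mul]
    · intro h
      exact absurd (Finset.mem_univ _) h
  have h3 : ∑ l, v l * b l = 0 := hv
  rw [h2, h3]
  ring

/-- A hyperplane section of a Segre variety is irreducible if the rank is at least two. -/
theorem segreSec_variety {m n : ℕ} (B : Matrix (Fin m) (Fin n) ℂ) (hB : 2 ≤ B.rank) :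
    IsProjectiveVariety (segreSec B) := by
  have hBt : 2 ≤ (Bᵀ).rank := by rwa [Matrix.rank_transpose]
  have h1 : 2 ≤ Module.finrank ℂ (LinearMap.range (Bᵀ).mulVecLin) := hBt
  obtain ⟨f, hf⟩ := exists_linearIndependent_of_le_finrank h1
  have hf' : LinearIndependent ℂ fun k => (f k : Fin n → ℂ) :=
    hf.map' (Submodule.subtype _) (Submodule.ker_subtype _)
  choose y hy using fun k => (f k).2
  have hy' : ∀ k, Bᵀ *ᵥ y k = (f k : Fin n → ℂ) := hy
  -- for every `v` there is `w` with `b(w) ≠ 0` orthogonal to `v`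
  have hw : ∀ v : Fin n → ℂ, ∃ w : Fin m → ℂ, Bᵀ *ᵥ w ≠ 0 ∧ v ⬝ᵥ (Bᵀ *ᵥ w) = 0 := by
    intro v
    rw [linearIndependent_fin2] at hf'
    obtain ⟨hf0, hf1⟩ := hf'
    by_cases h0 : v ⬝ᵥ (Bᵀ *ᵥ y 1) = 0
    · exact ⟨y 1, by rw [hy']; exact hf0, h0⟩
    · refine ⟨(v ⬝ᵥ (Bᵀ *ᵥ y 1)) • y 0 - (v ⬝ᵥ (Bᵀ *ᵥ y 0)) • y 1, ?_, ?_⟩
      · rw [Matrix.mulVec_sub, Matrix.mulVec_smul, Matrix.mulVec_smul, hy', hy', sub_ne_zero]
        intro h2
        apply hf1 ((v ⬝ᵥ (f 1 : Fin n → ℂ))⁻¹ * (v ⬝ᵥ (f 0 : Fin n → ℂ)))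
        have h3 : v ⬝ᵥ (f 1 : Fin n → ℂ) ≠ 0 := by rw [← hy']; exact h0
        rw [mul_smul, ← h2, smul_smul, inv_mul_cancel₀ h3, one_smul]
      · rw [Matrix.mulVec_sub, Matrix.mulVec_smul, Matrix.mulVec_smul, dotProduct_sub, dotProduct_smul,
          dotProduct_smul, smul_eq_mul, smul_eq_mul]
        ring
  have hne : (segreSec B).Nonempty := by
    obtain ⟨w, hw1, hw2⟩ := hw 0
    obtain ⟨j0, hj0⟩ := Function.ne_iff.mp hw1
    -- a vector orthogonal to `b(w)`
    have h2 : ∃ v : Fin n → ℂ, v ≠ 0 ∧ v ⬝ᵥ (Bᵀ *ᵥ w) = 0 := by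
      have h3 : 2 ≤ n := hBt.trans (Matrix.rank_le_height _)
      have h4 : ∃ j1 : Fin n, j1 ≠ j0 := by
        rcases Nat.eq_zero_or_pos j0.1 with h | h
        · exact ⟨⟨1, by omega⟩, fun h' => by have := congrArg Fin.val h'; simp at this; omega⟩
        · exact ⟨⟨0, by omega⟩, fun h' => by have := congrArg Fin.val h'; simp at this; omega⟩
      obtain ⟨j1, hj1⟩ := h4
      refine ⟨(Bᵀ *ᵥ w) j0 • Pi.single j1 1 - (Bᵀ *ᵥ w) j1 • Pi.single j0 1, ?_, ?_⟩
      · intro h5
        have h6 := congrFun h5 j1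
        simp only [Pi.sub_apply, Pi.smul_apply, Pi.single_eq_same, Pi.single_eq_of_ne hj1, smul_zero,
          sub_zero, smul_eq_mul, mul_one, mul_zero, Pi.zero_apply] at h6
        exact hj0 h6
      · rw [sub_dotProduct, smul_dotProduct, smul_dotProduct, single_one_dotProduct, single_one_dotProduct,
          smul_eq_mul, smul_eq_mul]
        ring
    obtain ⟨v, hv0, hv⟩ := h2
    have hw0 : w ≠ 0 := by
      rintro rfl
      exact hw1 (Matrix.mulVec_zero _)
    have hne : (fun ij : Fin m × Fin n => w ij.1 * v ij.2) ≠ 0 := by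
      obtain ⟨i0, hi0⟩ := Function.ne_iff.mp hw0
      obtain ⟨k0, hk0⟩ := Function.ne_iff.mp hv0
      intro h
      have h5 := congrFun h (i0, k0)
      exact (mul_ne_zero hi0 hk0) h5
    refine ⟨Projectivization.mk ℂ _ hne, ?_⟩
    rw [← mem_cone_iff hne, mem_cone_segreSec]
    exact ⟨w, v, fun i j => rfl, by rw [segreSec_lin]; exact hv⟩
  refine ⟨segreSec_closed B, irred_of_param hne (σ := Fin m ⊕ (Fin n × Fin n))
    (fun ij => X (Sum.inl ij.1) *
      ∑ l, (X (Sum.inr (ij.2, l)) - X (Sum.inr (l, ij.2))) * ∑ i, C (B i l) * X (Sum.inl i)) ?_ ?_⟩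
  · intro x
    rw [mem_cone_segreSec]
    refine ⟨fun i => x (Sum.inl i), fun j => ∑ l, (x (Sum.inr (j, l)) - x (Sum.inr (l, j))) *
      (Bᵀ *ᵥ fun i => x (Sum.inl i)) l, fun i j => ?_, ?_⟩
    · simp only [map_mul, map_sum, map_sub, eval_X, eval_C]
      rfl
    · rw [segreSec_lin]
      generalize (Bᵀ *ᵥ fun i => x (Sum.inl i)) = b
      show ∑ j, (∑ l, (x (Sum.inr (j, l)) - x (Sum.inr (l, j))) * b l) * b j = 0
      have h2 : ∑ j, (∑ l, (x (Sum.inr (j, l)) - x (Sum.inr (l, j))) * b l) * b j =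
          ∑ j, ∑ l, x (Sum.inr (j, l)) * (b l * b j) - ∑ j, ∑ l, x (Sum.inr (l, j)) * (b l * b j) := by
        rw [← Finset.sum_sub_distrib]
        refine Finset.sum_congr rfl fun j _ => ?_
        rw [← Finset.sum_sub_distrib, Finset.sum_mul]
        exact Finset.sum_congr rfl fun l _ => by ring
      rw [h2, sub_eq_zero]
      conv_rhs => rw [Finset.sum_comm]
      exact Finset.sum_congr rfl fun j _ => Finset.sum_congr rfl fun l _ => by ring
  · intro F d hF hvan p hp
    obtain ⟨u, v, h2, h3⟩ := hp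
    rw [segreSec_lin] at h3
    -- the main part
    have hmain : ∀ (u : Fin m → ℂ), Bᵀ *ᵥ u ≠ 0 → v ⬝ᵥ (Bᵀ *ᵥ u) = 0 →
        eval (fun ij : Fin m × Fin n => u ij.1 * v ij.2) F = 0 := by
      intro u hu huv
      obtain ⟨k, hk⟩ := skew_solve _ v hu huv
      have h4 := hvan (Sum.elim u (fun jl => k jl.1 jl.2))
      have h5 : (fun ij : Fin m × Fin n => u ij.1 * v ij.2) = fun ij =>
          eval (Sum.elim u (fun jl => k jl.1 jl.2)) (X (Sum.inl ij.1) *
            ∑ l, (X (Sum.inr (ij.2, l)) - X (Sum.inr (l, ij.2))) * ∑ i, C (B i l) * X (Sum.inl i)) := by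
        funext ij
        simp only [map_mul, map_sum, map_sub, eval_X, eval_C, Sum.elim_inl, Sum.elim_inr]
        rw [hk ij.2]
        rfl
      rw [h5]
      exact h4
    have h4 : p.rep = fun ij : Fin m × Fin n => u ij.1 * v ij.2 := by
      funext ⟨i, j⟩
      exact h2 i j
    rw [h4]
    by_cases hu : Bᵀ *ᵥ u = 0
    · obtain ⟨w, hw1, hw2⟩ := hw v
      have h5 := limit_zero F (fun ij => Polynomial.C (u ij.1 * v ij.2) +
        Polynomial.X * Polynomial.C (w ij.1 * v ij.2)) (fun ε hε => by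
          have h6 := hmain (u + ε • w) (by
            rw [Matrix.mulVec_add, hu, zero_add, Matrix.mulVec_smul]
            exact smul_ne_zero hε hw1) (by
            rw [Matrix.mulVec_add, hu, zero_add, Matrix.mulVec_smul, dotProduct_smul, hw2, smul_zero])
          have h7 : (fun ij : Fin m × Fin n => Polynomial.eval ε (Polynomial.C (u ij.1 * v ij.2) +
              Polynomial.X * Polynomial.C (w ij.1 * v ij.2))) =
              fun ij => (u + ε • w) ij.1 * v ij.2 := by
            funext ij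
            simp only [Polynomial.eval_add, Polynomial.eval_mul, Polynomial.eval_C, Polynomial.eval_X,
              Pi.add_apply, Pi.smul_apply, smul_eq_mul]
            ring
          rw [h7]
          exact h6)
      have h8 : (fun ij : Fin m × Fin n => Polynomial.eval 0 (Polynomial.C (u ij.1 * v ij.2) +
              Polynomial.X * Polynomial.C (w ij.1 * v ij.2))) =
              fun ij => u ij.1 * v ij.2 := by
        funext ij
        simp
      rw [h8] at h5
      exact h5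
    · exact hmain u hu h3

end Pool.Agent.Lib.MP_e005b4_ag
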