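import Pool.Agent.Lib.MP_e005b4_ag.Ranks

/-!
# Rank and border rank: general criteria
-/

set_option autoImplicit false

namespace Pool.Agent.Lib.MP_e005b4_ag

set_option linter.unusedSectionVars false

open MvPolynomial Matrix
open scoped LinearAlgebra.Projectivization

variable {ι : Type} [Fintype ι]

theorem mem_secantSet_of_sum' {X : Set (PSpace ι)} {r : ℕ} (z : Fin r → (ι → ℂ))
    (hz : ∀ i, z i ∈ cone X) (p : PSpace ι) (hp : p.rep = ∑ i, z i) : p ∈ secantSet X r := by
  classical
  have hex : ∃ i, z i ≠ 0 := by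
    by_contra hno
    push Not at hno
    apply p.rep_nonzero
    rw [hp]
    exact Finset.sum_eq_zero fun i _ => hno i
  obtain ⟨i0, hi0⟩ := hex
  refine ⟨fun i => if h : z i ≠ 0 then Projectivization.mk ℂ (z i) h
    else Projectivization.mk ℂ (z i0) hi0, ?_, ?_⟩
  · intro i
    show (if h : z i ≠ 0 then Projectivization.mk ℂ (z i) h
      else Projectivization.mk ℂ (z i0) hi0) ∈ X
    split_ifs with h
    · exact hz i h
    · exact hz i0 hi0
  · rw [Projectivization.submodule_eq, Submodule.span_singleton_le_iff_mem, hp]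
    refine Submodule.sum_mem _ fun i _ => ?_
    by_cases h : z i = 0
    · rw [h]
      exact Submodule.zero_mem _
    · refine (le_iSup (fun i => (if h : z i ≠ 0 then Projectivization.mk ℂ (z i) h
        else Projectivization.mk ℂ (z i0) hi0).submodule) i) ?_
      simp only [ne_eq, h, not_false_eq_true, dite_true]
      rw [Projectivization.submodule_mk]
      exact Submodule.mem_span_singleton_self _

theorem exists_sum_of_mem_secantSet {X : Set (PSpace ι)} {r : ℕ} {p : PSpace ι}
    (h : p ∈ secantSet X r) : ∃ z : Fin r → (ι → ℂ), (∀ i, z i ∈ cone X) ∧ p.rep = ∑ i, z i := by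
  obtain ⟨x, hx, hp⟩ := h
  rw [Projectivization.submodule_eq, Submodule.span_singleton_le_iff_mem] at hp
  have h1 : (⨆ i, (x i).submodule) = Submodule.span ℂ (Set.range fun i => (x i).rep) := by
    rw [Submodule.span_range_eq_iSup]
    exact iSup_congr fun i => Projectivization.submodule_eq (x i)
  rw [h1, Submodule.mem_span_range_iff_exists_fun] at hp
  obtain ⟨c, hc⟩ := hp
  exact ⟨fun i => c i • (x i).rep, fun i => smul_mem_cone (rep_mem_cone.2 (hx i)) _, hc.symm⟩

theorem rank_eq_of_secant {X : Set (PSpace ι)}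
    (h : ∀ r, secantVariety X r ⊆ secantSet X r) (p : PSpace ι) : xRank X p = xBorderRank X p := by
  have h1 : ∀ r, p ∈ secantSet X r ↔ p ∈ secantVariety X r := fun r =>
    ⟨fun hp => subset_zariskiClosure _ hp, fun hp => h r hp⟩
  unfold xRank xBorderRank
  simp only [h1]

theorem rank_eq_of_two {X : Set (PSpace ι)} (hX : IsZariskiClosed X) (hne : X.Nonempty)
    (h2 : ∀ p, p ∈ secantSet X 2) (p : PSpace ι) : xRank X p = xBorderRank X p := by
  apply rank_eq_of_secant
  intro r q hq
  rcases Nat.lt_or_ge r 2 with hr | hr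
  · rcases Nat.lt_or_ge r 1 with hr' | hr'
    · have : r = 0 := by omega
      subst this
      rw [secantVariety_zero] at hq
      exact hq.elim
    · have : r = 1 := by omega
      subst this
      rw [secantVariety_one hX] at hq
      rw [secantSet_one]
      exact hq
  · exact secantSet_mono hne hr (h2 q)

/-- A linear form vanishing on a set vanishes on its closure. -/
theorem linear_of_closure [DecidableEq ι] {T : Set (PSpace ι)} (ℓ : ι → ℂ)
    (hT : ∀ q ∈ T, ∑ i, ℓ i * q.rep i = 0) {p : PSpace ι} (hp : p ∈ zariskiClosure T) :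
    ∑ i, ℓ i * p.rep i = 0 := by
  have h1 : ∀ v : ι → ℂ, eval v (∑ i, C (ℓ i) * X i) = ∑ i, ℓ i * v i := by
    intro v
    rw [map_sum]
    exact Finset.sum_congr rfl fun i _ => by rw [map_mul, eval_C, eval_X]
  rw [← h1]
  refine hp _ 1 ?_ fun q hq => by rw [h1]; exact hT q hq
  refine IsHomogeneous.sum _ _ _ fun i _ => ?_
  have h2 := (isHomogeneous_C ι (ℓ i)).mul (isHomogeneous_X ℂ i)
  rwa [zero_add] at h2

/-- The determinant of a matrix of linear forms is homogeneous. -/
theorem isHomogeneous_det {N : ℕ} (A : Matrix (Fin N) (Fin N) (MvPolynomial ι ℂ))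
    (hA : ∀ i j, (A i j).IsHomogeneous 1) : A.det.IsHomogeneous N := by
  rw [Matrix.det_apply]
  refine IsHomogeneous.sum _ _ _ fun σ _ => ?_
  have h1 : (∏ i, A (σ i) i).IsHomogeneous N := by
    have h2 := IsHomogeneous.prod Finset.univ (fun i => A (σ i) i) (fun _ => 1)
      fun i _ => hA _ _
    simpa using h2
  rw [Units.smul_def, zsmul_eq_mul]
  have h3 : (((Equiv.Perm.sign σ : ℤˣ) : ℤ) : MvPolynomial ι ℂ) =
      C (((Equiv.Perm.sign σ : ℤˣ) : ℤ) : ℂ) := by simp
  rw [h3]
  have h4 := (isHomogeneous_C ι (((Equiv.Perm.sign σ : ℤˣ) : ℤ) : ℂ)).mul h1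
  rwa [zero_add] at h4

/-- The matrix with the given coordinates. -/
def mat {m n : ℕ} (v : Fin m × Fin n → ℂ) : Matrix (Fin m) (Fin n) ℂ :=
  Matrix.of fun i j => v (i, j)

theorem mat_add {m n : ℕ} (v w : Fin m × Fin n → ℂ) : mat (v + w) = mat v + mat w := rfl

theorem mat_smul {m n : ℕ} (c : ℂ) (v : Fin m × Fin n → ℂ) : mat (c • v) = c • mat v := rfl

theorem mat_sum {m n r : ℕ} (v : Fin r → Fin m × Fin n → ℂ) :
    mat (∑ k, v k) = ∑ k, mat (v k) := by
  ext i j
  rw [Matrix.sum_apply]
  show (∑ k, v k) (i, j) = _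
  rw [Finset.sum_apply]
  rfl

theorem exists_PQ {m n r : ℕ} (M : Matrix (Fin m) (Fin n) ℂ) (h : r < M.rank) :
    ∃ (P : Matrix (Fin (r + 1)) (Fin m) ℂ) (Q : Matrix (Fin n) (Fin (r + 1)) ℂ),
      P * M * Q = 1 := by
  have h1 : r + 1 ≤ Module.finrank ℂ (LinearMap.range M.mulVecLin) := h
  obtain ⟨f, hf⟩ := exists_linearIndependent_of_le_finrank h1
  have hf' : LinearIndependent ℂ fun k => (f k : Fin m → ℂ) :=
    hf.map' (Submodule.subtype _) (Submodule.ker_subtype _)
  choose y hy using fun k => (f k).2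
  let g : (Fin (r + 1) → ℂ) →ₗ[ℂ] (Fin m → ℂ) := Fintype.linearCombination ℂ
    (fun k => (f k : Fin m → ℂ))
  have hg : LinearMap.ker g = ⊥ := by
    rw [LinearMap.ker_eq_bot']
    intro c hc
    rw [Fintype.linearIndependent_iff] at hf'
    funext k
    exact hf' c hc k
  obtain ⟨p, hp⟩ := g.exists_leftInverse_of_injective hg
  refine ⟨LinearMap.toMatrix' p, Matrix.of fun j k => y k j, ?_⟩
  ext i k
  have h3 : p (f k : Fin m → ℂ) = Pi.single k 1 := by
    have h4 : g (Pi.single k 1) = (f k : Fin m → ℂ) := by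
      simp [g, Fintype.linearCombination_apply_single]
    rw [← h4]
    exact LinearMap.congr_fun hp _
  have h5 : (LinearMap.toMatrix' p * M * Matrix.of fun j k => y k j) i k =
      (LinearMap.toMatrix' p *ᵥ (M *ᵥ y k)) i := by
    rw [Matrix.mulVec_mulVec]
    rfl
  rw [h5]
  have h6 : M *ᵥ y k = (f k : Fin m → ℂ) := hy k
  rw [h6, LinearMap.toMatrix'_mulVec, h3, Matrix.one_apply, Pi.single_apply]

/-- The rank of matrices is lower semicontinuous. -/
theorem rank_le_of_closure {m n r : ℕ} {T : Set (PSpace (Fin m × Fin n))}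
    (hT : ∀ q ∈ T, (mat q.rep).rank ≤ r) {p : PSpace (Fin m × Fin n)}
    (hp : p ∈ zariskiClosure T) : (mat p.rep).rank ≤ r := by
  by_contra hno
  push Not at hno
  obtain ⟨P, Q, hPQ⟩ := exists_PQ (mat p.rep) hno
  let A : Matrix (Fin (r + 1)) (Fin (r + 1)) (MvPolynomial (Fin m × Fin n) ℂ) :=
    (P.map C : Matrix _ _ (MvPolynomial (Fin m × Fin n) ℂ)) *
      (Matrix.of fun i j => X (i, j) : Matrix (Fin m) (Fin n) (MvPolynomial (Fin m × Fin n) ℂ)) *
      (Q.map C : Matrix _ _ (MvPolynomial (Fin m × Fin n) ℂ))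
  have hA : ∀ v : Fin m × Fin n → ℂ, eval v A.det = (P * mat v * Q).det := by
    intro v
    rw [RingHom.map_det]
    congr 1
    simp only [A, RingHom.mapMatrix_apply, Matrix.map_mul]
    congr 2
    · ext i j
      simp
    · ext i j
      simp [mat]
    · ext i j
      simp
  have h1 := hp A.det (r + 1) (isHomogeneous_det A fun i0 j0 => ?_) fun q hq => ?_
  · rw [hA, hPQ, Matrix.det_one] at h1
    exact one_ne_zero h1
  · simp only [A, Matrix.mul_apply, Matrix.map_apply, Matrix.of_apply, Finset.sum_mul]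
    refine IsHomogeneous.sum _ _ _ fun j _ => IsHomogeneous.sum _ _ _ fun i _ => ?_
    have h2 := ((isHomogeneous_C (Fin m × Fin n) (P i0 i)).mul
      (isHomogeneous_X ℂ (i, j))).mul (isHomogeneous_C (Fin m × Fin n) (Q j j0))
    simpa using h2
  · rw [hA]
    by_contra hdet
    have h3 : (P * mat q.rep * Q).rank = r + 1 := by
      rw [Matrix.rank_of_isUnit _ ((Matrix.isUnit_iff_isUnit_det _).2 (isUnit_iff_ne_zero.2 hdet)),
        Fintype.card_fin]
    have h4 : (P * mat q.rep * Q).rank ≤ (mat q.rep).rank :=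
      (Matrix.rank_mul_le_left _ _).trans (Matrix.rank_mul_le_right _ _)
    have h5 := hT q hq
    omega

end Pool.Agent.Lib.MP_e005b4_ag
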