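import Pool.Agent.Lib.MP_e005b4_ag.Sec.GrassND

/-!
# Skew matrices as sums of bivectors isotropic for two forms
-/

set_option autoImplicit false

namespace Pool.Agent.Lib.MP_e005b4_ag

open MvPolynomial Matrix
open scoped LinearAlgebra.Projectivization

theorem skew_dot {n : ℕ} {M : Matrix (Fin n) (Fin n) ℂ} (hM : Mᵀ = -M) (u v : Fin n → ℂ) :
    u ⬝ᵥ (M *ᵥ v) = -(v ⬝ᵥ (M *ᵥ u)) := by
  have h1 : v ⬝ᵥ (M *ᵥ u) = u ⬝ᵥ (Mᵀ *ᵥ v) := by
    rw [Matrix.dotProduct_mulVec, dotProduct_comm, ← Matrix.mulVec_transpose]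
  rw [h1, hM, Matrix.neg_mulVec, dotProduct_neg, neg_neg]

theorem skew_self {n : ℕ} {M : Matrix (Fin n) (Fin n) ℂ} (hM : Mᵀ = -M) (u : Fin n → ℂ) :
    u ⬝ᵥ (M *ᵥ u) = 0 := by
  have h := skew_dot hM u u
  linear_combination (1 / 2 : ℂ) * h

theorem skew_conj {n : ℕ} {M B : Matrix (Fin n) (Fin n) ℂ} (hM : Mᵀ = -M) (hB : Bᵀ = -B) :
    (M * B * M)ᵀ = -(M * B * M) := by
  rw [Matrix.transpose_mul, Matrix.transpose_mul, hM, hB]
  simp [Matrix.mul_assoc]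

theorem toBilin_apply {n : ℕ} (M : Matrix (Fin n) (Fin n) ℂ) (u v : Fin n → ℂ) :
    Matrix.toBilin' M u v = u ⬝ᵥ (M *ᵥ v) := by
  rw [Matrix.toBilin'_apply']

theorem pair_exists {n : ℕ} (M B₁ B₂ : Matrix (Fin n) (Fin n) ℂ) (hM : Mᵀ = -M) (h1 : B₁ᵀ = -B₁)
    (h2 : B₂ᵀ = -B₂) (h0 : M ≠ 0) (t1 : (M * B₁).trace = 0) (t2 : (M * B₂).trace = 0) :
    ∃ β γ : Fin n → ℂ, β ⬝ᵥ (M *ᵥ γ) = 1 ∧ β ⬝ᵥ ((M * B₁ * M) *ᵥ γ) = 0 ∧
      β ⬝ᵥ ((M * B₂ * M) *ᵥ γ) = 0 := by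
  by_contra hno
  push Not at hno
  have hH : ∀ β γ : Fin n → ℂ, β ⬝ᵥ ((M * B₁ * M) *ᵥ γ) = 0 → β ⬝ᵥ ((M * B₂ * M) *ᵥ γ) = 0 →
      β ⬝ᵥ (M *ᵥ γ) = 0 := by
    intro β γ h3 h4
    by_contra hne
    refine hno ((β ⬝ᵥ (M *ᵥ γ))⁻¹ • β) γ ?_ ?_ ?_
    · rw [smul_dotProduct, smul_eq_mul, inv_mul_cancel₀ hne]
    · rw [smul_dotProduct, h3, smul_zero]
    · rw [smul_dotProduct, h4, smul_zero]
  obtain ⟨a, b, hab⟩ := nd_main (Matrix.toBilin' M) (Matrix.toBilin' (M * B₁ * M))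
    (Matrix.toBilin' (M * B₂ * M)) (fun u => by rw [toBilin_apply]; exact skew_self hM u)
    (fun u => by rw [toBilin_apply]; exact skew_self (skew_conj hM h1) u)
    (fun u => by rw [toBilin_apply]; exact skew_self (skew_conj hM h2) u)
    (fun u v => by rw [toBilin_apply, toBilin_apply, toBilin_apply]; exact hH u v)
  have h3 : M = M * (a • B₁ + b • B₂) * M := by
    have h4 : Matrix.toBilin' M = Matrix.toBilin' (M * (a • B₁ + b • B₂) * M) := by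
      rw [hab, Matrix.mul_add, Matrix.add_mul, Matrix.mul_smul, Matrix.mul_smul, Matrix.smul_mul,
        Matrix.smul_mul, map_add, map_smul, map_smul]
    exact (Matrix.toBilin' (R₁ := ℂ)).injective h4
  have h4 : (M * (a • B₁ + b • B₂)) * (M * (a • B₁ + b • B₂)) = M * (a • B₁ + b • B₂) := by
    rw [← Matrix.mul_assoc, ← h3]
  have h5 : M * (a • B₁ + b • B₂) = 0 := idem_zero _ h4 (by
    rw [Matrix.mul_add, Matrix.mul_smul, Matrix.mul_smul, Matrix.trace_add, Matrix.trace_smul,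
      Matrix.trace_smul, t1, t2, smul_zero, smul_zero, add_zero])
  apply h0
  rw [h3, h5, Matrix.zero_mul]

/-- The bivector `x ∧ y` as a skew matrix. -/
def biv {n : ℕ} (x y : Fin n → ℂ) : Matrix (Fin n) (Fin n) ℂ := vecMulVec x y - vecMulVec y x

theorem biv_apply {n : ℕ} (x y : Fin n → ℂ) (i j : Fin n) : biv x y i j = x i * y j - x j * y i := by
  show x i * y j - y i * x j = _
  ring

theorem biv_mulVec {n : ℕ} (x y w : Fin n → ℂ) : biv x y *ᵥ w = (y ⬝ᵥ w) • x - (x ⬝ᵥ w) • y := by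
  rw [biv, Matrix.sub_mulVec, Matrix.vecMulVec_mulVec, Matrix.vecMulVec_mulVec, op_smul_eq_smul,
    op_smul_eq_smul]

theorem biv_transpose {n : ℕ} (x y : Fin n → ℂ) : (biv x y)ᵀ = -biv x y := by
  ext i j
  rw [Matrix.transpose_apply, Matrix.neg_apply, biv_apply, biv_apply]
  ring

theorem biv_trace {n : ℕ} (x y : Fin n → ℂ) {B : Matrix (Fin n) (Fin n) ℂ} (hB : Bᵀ = -B) :
    (biv x y * B).trace = -2 * (x ⬝ᵥ (B *ᵥ y)) := by
  rw [biv, Matrix.sub_mul, Matrix.trace_sub, trace_outer, trace_outer, skew_dot hB y x]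
  ring

theorem pair_rank {n : ℕ} (M : Matrix (Fin n) (Fin n) ℂ) (hM : Mᵀ = -M) (β γ : Fin n → ℂ)
    (h : β ⬝ᵥ (M *ᵥ γ) = 1) : (M - biv (M *ᵥ β) (M *ᵥ γ)).rank + 2 ≤ M.rank := by
  have hval : ∀ w, (M - biv (M *ᵥ β) (M *ᵥ γ)) *ᵥ w =
      M *ᵥ w + (γ ⬝ᵥ (M *ᵥ w)) • (M *ᵥ β) - (β ⬝ᵥ (M *ᵥ w)) • (M *ᵥ γ) := by
    intro w
    have h1 : (M *ᵥ γ) ⬝ᵥ w = -(γ ⬝ᵥ (M *ᵥ w)) := by
      rw [dotProduct_comm, skew_dot hM]
    have h2 : (M *ᵥ β) ⬝ᵥ w = -(β ⬝ᵥ (M *ᵥ w)) := by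
      rw [dotProduct_comm, skew_dot hM]
    rw [Matrix.sub_mulVec, biv_mulVec, h1, h2, neg_smul, neg_smul]
    abel
  have hβγ : γ ⬝ᵥ (M *ᵥ β) = -1 := by rw [skew_dot hM, h]
  have hββ := skew_self hM β
  have hγγ := skew_self hM γ
  obtain ⟨N, hN⟩ : ∃ N, N = M - biv (M *ᵥ β) (M *ᵥ γ) := ⟨_, rfl⟩
  rw [← hN] at hval ⊢
  -- the intermediate kernel
  let φ : (Fin n → ℂ) →ₗ[ℂ] ℂ := (Matrix.toBilin' M) β
  have hφ : ∀ w, φ w = β ⬝ᵥ (M *ᵥ w) := fun w => toBilin_apply M β w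
  have hlt1 : LinearMap.ker M.mulVecLin < LinearMap.ker N.mulVecLin ⊓ LinearMap.ker φ := by
    rw [SetLike.lt_iff_le_and_exists]
    refine ⟨fun w hw => ?_, β, ?_, fun hy => ?_⟩
    · rw [LinearMap.mem_ker, Matrix.mulVecLin_apply] at hw
      rw [Submodule.mem_inf, LinearMap.mem_ker, LinearMap.mem_ker, Matrix.mulVecLin_apply, hval, hφ, hw]
      simp
    · rw [Submodule.mem_inf, LinearMap.mem_ker, LinearMap.mem_ker, Matrix.mulVecLin_apply, hval, hφ,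
        hβγ, hββ]
      simp
    · rw [LinearMap.mem_ker, Matrix.mulVecLin_apply] at hy
      rw [hy, dotProduct_zero] at hβγ
      exact neg_ne_zero.2 one_ne_zero hβγ.symm
  have hlt2 : LinearMap.ker N.mulVecLin ⊓ LinearMap.ker φ < LinearMap.ker N.mulVecLin := by
    rw [SetLike.lt_iff_le_and_exists]
    refine ⟨inf_le_left, γ, ?_, fun hy => ?_⟩
    · rw [LinearMap.mem_ker, Matrix.mulVecLin_apply, hval, h, hγγ]
      simp
    · rw [Submodule.mem_inf, LinearMap.mem_ker, LinearMap.mem_ker, hφ, h] at hy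
      exact one_ne_zero hy.2
  have h1 := Submodule.finrank_lt_finrank_of_lt hlt1
  have h2 := Submodule.finrank_lt_finrank_of_lt hlt2
  have h3 := M.mulVecLin.finrank_range_add_finrank_ker
  have h4 := N.mulVecLin.finrank_range_add_finrank_ker
  unfold Matrix.rank
  omega

theorem grass_decomp {n : ℕ} (B₁ B₂ : Matrix (Fin n) (Fin n) ℂ) (h1 : B₁ᵀ = -B₁) (h2 : B₂ᵀ = -B₂)
    (r : ℕ) : ∀ M : Matrix (Fin n) (Fin n) ℂ, Mᵀ = -M → M.rank ≤ 2 * r → (M * B₁).trace = 0 →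
      (M * B₂).trace = 0 → ∃ (u v : Fin r → Fin n → ℂ),
        (∀ k, u k ⬝ᵥ (B₁ *ᵥ v k) = 0 ∧ u k ⬝ᵥ (B₂ *ᵥ v k) = 0) ∧ M = ∑ k, biv (u k) (v k) := by
  induction r with
  | zero =>
    intro M _ hM _ _
    refine ⟨fun _ => 0, fun _ => 0, fun k => k.elim0, ?_⟩
    rw [Finset.univ_eq_empty, Finset.sum_empty]
    have h3 : Module.finrank ℂ (LinearMap.range M.mulVecLin) = 0 := Nat.le_zero.1 hM
    have h4 : LinearMap.range M.mulVecLin = ⊥ := Submodule.finrank_eq_zero.1 h3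
    have h5 : M.mulVecLin = 0 := LinearMap.range_eq_bot.1 h4
    exact Matrix.toLin'.map_eq_zero_iff.1 h5
  | succ r ih =>
    intro M hM hr ht1 ht2
    by_cases h0 : M = 0
    · refine ⟨fun _ => 0, fun _ => 0, fun k => by simp, ?_⟩
      rw [h0]
      simp [biv]
    · obtain ⟨β, γ, h3, h4, h5⟩ := pair_exists M B₁ B₂ hM h1 h2 h0 ht1 ht2
      have hrk := pair_rank M hM β γ h3
      have hB : ∀ B : Matrix (Fin n) (Fin n) ℂ, β ⬝ᵥ ((M * B * M) *ᵥ γ) = 0 →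
          (M *ᵥ β) ⬝ᵥ (B *ᵥ (M *ᵥ γ)) = 0 := by
        intro B hb
        rw [dotProduct_comm, skew_dot hM, Matrix.mulVec_mulVec, Matrix.mulVec_mulVec, hb, neg_zero]
      obtain ⟨u, v, huv, hsum⟩ := ih (M - biv (M *ᵥ β) (M *ᵥ γ)) (by
        rw [Matrix.transpose_sub, biv_transpose, hM]
        abel) (by omega) (by
        rw [Matrix.sub_mul, Matrix.trace_sub, ht1, biv_trace _ _ h1, hB _ h4]
        ring) (by
        rw [Matrix.sub_mul, Matrix.trace_sub, ht2, biv_trace _ _ h2, hB _ h5]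
        ring)
      refine ⟨Fin.cons (M *ᵥ β) u, Fin.cons (M *ᵥ γ) v, fun k => ?_, ?_⟩
      · refine Fin.cases ?_ (fun k => ?_) k
        · exact ⟨hB _ h4, hB _ h5⟩
        · exact huv k
      · rw [Fin.sum_univ_succ]
        simp only [Fin.cons_zero, Fin.cons_succ]
        rw [← hsum]
        abel

end Pool.Agent.Lib.MP_e005b4_ag
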