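import Pool.Agent.Lib.MP_e005b4_ag.Sec.GrassIrr

/-!
# Hyperplane sections of Grassmannians of lines: irreducibility
-/

set_option autoImplicit false

namespace Pool.Agent.Lib.MP_e005b4_ag

open MvPolynomial Matrix
open scoped LinearAlgebra.Projectivization

theorem hyp_good {n : ℕ} {B : Matrix (Fin n) (Fin n) ℂ} (h1 : Bᵀ = -B) (h0 : B ≠ 0) (v : Fin n → ℂ) :
    ∃ a : Fin n → ℂ, v ⬝ᵥ (B *ᵥ a) = 0 ∧ B *ᵥ a ≠ 0 := by
  by_contra hno
  push Not at hno
  have hz : (∀ a : Fin n → ℂ, B *ᵥ a = 0) → False := by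
    intro h
    apply h0
    apply Matrix.toLin'.injective
    rw [map_zero]
    refine LinearMap.ext fun a => ?_
    rw [Matrix.toLin'_apply, h, LinearMap.zero_apply]
  by_cases hv : ∀ a : Fin n → ℂ, v ⬝ᵥ (B *ᵥ a) = 0
  · exact hz fun a => hno a (hv a)
  · push Not at hv
    obtain ⟨a0, ha0⟩ := hv
    have h2 : ∀ a : Fin n → ℂ, (v ⬝ᵥ (B *ᵥ a0)) • (B *ᵥ a) = (v ⬝ᵥ (B *ᵥ a)) • (B *ᵥ a0) := by
      intro a
      have h3 := hno ((v ⬝ᵥ (B *ᵥ a0)) • a - (v ⬝ᵥ (B *ᵥ a)) • a0) (by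
        rw [Matrix.mulVec_sub, Matrix.mulVec_smul, Matrix.mulVec_smul, dotProduct_sub, dotProduct_smul,
          dotProduct_smul, smul_eq_mul, smul_eq_mul]
        ring)
      rwa [Matrix.mulVec_sub, Matrix.mulVec_smul, Matrix.mulVec_smul, sub_eq_zero] at h3
    have h3 : ∀ a : Fin n → ℂ, a ⬝ᵥ (B *ᵥ a0) = 0 := by
      intro a
      have h4 := congrArg (fun w => a0 ⬝ᵥ w) (h2 a)
      simp only [dotProduct_smul, smul_eq_mul] at h4
      rw [skew_self h1, mul_zero, skew_dot h1 a0 a] at h4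
      exact neg_eq_zero.1 ((mul_eq_zero.1 h4).resolve_left ha0)
    have h4 : B *ᵥ a0 = 0 := by
      funext i
      have h5 := h3 (Pi.single i 1)
      rwa [single_one_dotProduct] at h5
    rw [h4, dotProduct_zero] at ha0
    exact ha0 rfl

theorem hyp_nonempty {n : ℕ} (hn : 3 ≤ n) (B : Matrix (Fin n) (Fin n) ℂ) : (grassSec B 0).Nonempty := by
  obtain ⟨i0, hi0⟩ : ∃ i0 : Fin n, i0 = ⟨0, by omega⟩ := ⟨_, rfl⟩
  obtain ⟨i1, hi1⟩ : ∃ i1 : Fin n, i1 = ⟨1, by omega⟩ := ⟨_, rfl⟩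
  obtain ⟨i2, hi2⟩ : ∃ i2 : Fin n, i2 = ⟨2, by omega⟩ := ⟨_, rfl⟩
  have h01 : i0 ≠ i1 := by rw [hi0, hi1, Ne, Fin.mk.injEq]; omega
  have h02 : i0 ≠ i2 := by rw [hi0, hi2, Ne, Fin.mk.injEq]; omega
  have h12 : i1 ≠ i2 := by rw [hi1, hi2, Ne, Fin.mk.injEq]; omega
  have key : ∀ x y : ℂ, (x ≠ 0 ∨ y ≠ 0) → x * B i0 i1 + y * B i0 i2 = 0 → (grassSec B 0).Nonempty := by
    intro x y hxy h
    obtain ⟨a, ha⟩ : ∃ a : Fin n → ℂ, a = Pi.single i1 x + Pi.single i2 y := ⟨_, rfl⟩
    have ha0 : a i0 = 0 := by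
      rw [ha, Pi.add_apply, Pi.single_eq_of_ne h01, Pi.single_eq_of_ne h02, add_zero]
    have ha1 : a i1 = x := by
      rw [ha, Pi.add_apply, Pi.single_eq_same, Pi.single_eq_of_ne h12, add_zero]
    have ha2 : a i2 = y := by
      rw [ha, Pi.add_apply, Pi.single_eq_same, Pi.single_eq_of_ne h12.symm, zero_add]
    have hw : (fun ij : Fin n × Fin n => (Pi.single i0 1 : Fin n → ℂ) ij.1 * a ij.2 -
        (Pi.single i0 1 : Fin n → ℂ) ij.2 * a ij.1) ≠ 0 := by
      intro h3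
      have e1 := congrFun h3 (i0, i1)
      have e2 := congrFun h3 (i0, i2)
      simp only [Pi.single_eq_same, ha0, ha1, ha2, one_mul, mul_zero, sub_zero, Pi.zero_apply] at e1 e2
      rcases hxy with h4 | h4
      · exact h4 e1
      · exact h4 e2
    refine ⟨Projectivization.mk ℂ _ hw, ?_⟩
    rw [← mem_cone_iff hw, mem_cone_grassSec]
    refine ⟨Pi.single i0 1, a, fun i j => rfl, ?_, by simp⟩
    rw [single_one_dotProduct, ha, Matrix.mulVec_add, Pi.add_apply, Matrix.mulVec_single,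
      Matrix.mulVec_single]
    show MulOpposite.op x • B i0 i1 + MulOpposite.op y • B i0 i2 = 0
    rw [op_smul_eq_smul, op_smul_eq_smul, smul_eq_mul, smul_eq_mul]
    exact h
  by_cases h : B i0 i2 = 0 ∧ B i0 i1 = 0
  · exact key 1 0 (Or.inl one_ne_zero) (by rw [h.2]; ring)
  · refine key (B i0 i2) (-B i0 i1) ?_ (by ring)
    by_contra h3
    push Not at h3
    exact h ⟨h3.1, neg_eq_zero.1 h3.2⟩

/-- The polynomials of the parametrization of a hyperplane section. -/
noncomputable def hp {n : ℕ} (B : Matrix (Fin n) (Fin n) ℂ) (j : Fin n) :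
    MvPolynomial (Fin n ⊕ (Fin n × Fin n)) ℂ :=
  ∑ l, (X (Sum.inr (j, l)) - X (Sum.inr (l, j))) * ∑ i, C (B l i) * X (Sum.inl i)

theorem eval_hp {n : ℕ} (B : Matrix (Fin n) (Fin n) ℂ) (j : Fin n) (x : Fin n ⊕ (Fin n × Fin n) → ℂ) :
    eval x (hp B j) = ∑ l, (x (Sum.inr (j, l)) - x (Sum.inr (l, j))) * (B *ᵥ fun i => x (Sum.inl i)) l := by
  simp only [hp, map_mul, map_sum, map_sub, eval_X, eval_C]
  rfl

/-- A hyperplane section of a Grassmannian of lines is a projective variety. -/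
theorem grassHyp_variety {n : ℕ} (hn : 3 ≤ n) {B : Matrix (Fin n) (Fin n) ℂ} (h1 : Bᵀ = -B)
    (h0 : B ≠ 0) : IsProjectiveVariety (grassSec B 0) := by
  refine ⟨grassSec_closed h1 (by simp), irred_of_param (hyp_nonempty hn B)
    (σ := Fin n ⊕ (Fin n × Fin n))
    (fun ij => X (Sum.inl ij.1) * hp B ij.2 - X (Sum.inl ij.2) * hp B ij.1) ?_ ?_⟩
  · intro x
    rw [mem_cone_grassSec]
    refine ⟨fun i => x (Sum.inl i), fun j => ∑ l, (x (Sum.inr (j, l)) - x (Sum.inr (l, j))) *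
      (B *ᵥ fun i => x (Sum.inl i)) l, fun i j => ?_, ?_, by simp⟩
    · simp only [map_mul, map_sub, eval_X, eval_hp]
    · rw [skew_dot h1, neg_eq_zero]
      generalize (B *ᵥ fun i => x (Sum.inl i)) = b
      show ∑ j, (∑ l, (x (Sum.inr (j, l)) - x (Sum.inr (l, j))) * b l) * b j = 0
      have h2 : ∑ j, (∑ l, (x (Sum.inr (j, l)) - x (Sum.inr (l, j))) * b l) * b j =
          ∑ j, ∑ l, x (Sum.inr (j, l)) * (b l * b j) - ∑ j, ∑ l, x (Sum.inr (l, j)) * (b l * b j) := by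
        rw [← Finset.sum_sub_distrib]
        refine Finset.sum_congr rfl fun j _ => ?_
        rw [← Finset.sum_sub_distrib, Finset.sum_mul]
        exact Finset.sum_congr rfl fun l _ => by ring
      rw [h2, sub_eq_zero]
      conv_rhs => rw [Finset.sum_comm]
      exact Finset.sum_congr rfl fun j _ => Finset.sum_congr rfl fun l _ => by ring
  · intro F d hF hvan p hp'
    obtain ⟨u, v, h3, h4, -⟩ := hp'
    have hgood : ∀ u : Fin n → ℂ, u ⬝ᵥ (B *ᵥ v) = 0 → B *ᵥ u ≠ 0 →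
        eval (fun ij : Fin n × Fin n => u ij.1 * v ij.2 - u ij.2 * v ij.1) F = 0 := by
      intro u hu hBu
      obtain ⟨k, hk⟩ := skew_solve (B *ᵥ u) v hBu (by rw [skew_dot h1, hu, neg_zero])
      have h6 := hvan (Sum.elim u (fun jl => k jl.1 jl.2))
      have h7 : (fun ij : Fin n × Fin n => u ij.1 * v ij.2 - u ij.2 * v ij.1) = fun ij =>
          eval (Sum.elim u (fun jl => k jl.1 jl.2))
            (X (Sum.inl ij.1) * hp B ij.2 - X (Sum.inl ij.2) * hp B ij.1) := by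
        funext ij
        simp only [map_sub, map_mul, eval_X, eval_hp, Sum.elim_inl, Sum.elim_inr]
        rw [hk ij.1, hk ij.2]
      rw [h7]
      exact h6
    have h6 : p.rep = fun ij : Fin n × Fin n => u ij.1 * v ij.2 - u ij.2 * v ij.1 := by
      funext ⟨i, j⟩
      exact h3 i j
    rw [h6]
    by_cases hu : B *ᵥ u = 0
    · obtain ⟨a, ha1, ha2⟩ := hyp_good h1 h0 v
      have h7 := limit_zero F (fun ij => Polynomial.C (u ij.1 * v ij.2 - u ij.2 * v ij.1) +
        Polynomial.X * Polynomial.C (a ij.1 * v ij.2 - a ij.2 * v ij.1)) (fun ε hε => by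
          have h8 := hgood (u + ε • a) (by
            rw [add_dotProduct, smul_dotProduct, h4, skew_dot h1 a v, ha1, neg_zero, smul_zero,
              add_zero]) (by
            rw [Matrix.mulVec_add, hu, zero_add, Matrix.mulVec_smul]
            exact smul_ne_zero hε ha2)
          have h9 : (fun ij : Fin n × Fin n => Polynomial.eval ε
              (Polynomial.C (u ij.1 * v ij.2 - u ij.2 * v ij.1) +
                Polynomial.X * Polynomial.C (a ij.1 * v ij.2 - a ij.2 * v ij.1))) =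
              fun ij => (u + ε • a) ij.1 * v ij.2 - (u + ε • a) ij.2 * v ij.1 := by
            funext ij
            simp only [Polynomial.eval_add, Polynomial.eval_mul, Polynomial.eval_C, Polynomial.eval_X,
              Pi.add_apply, Pi.smul_apply, smul_eq_mul]
            ring
          rw [h9]
          exact h8)
      have h8 : (fun ij : Fin n × Fin n => Polynomial.eval 0
          (Polynomial.C (u ij.1 * v ij.2 - u ij.2 * v ij.1) +
            Polynomial.X * Polynomial.C (a ij.1 * v ij.2 - a ij.2 * v ij.1))) =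
          fun ij => u ij.1 * v ij.2 - u ij.2 * v ij.1 := by
        funext ij
        simp
      rw [h8] at h7
      exact h7
    · exact hgood u h4 hu

end Pool.Agent.Lib.MP_e005b4_ag
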