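import Pool.Agent.Lib.MP_e005b4_ag.Sec.GrassVar

/-!
# Codimension two sections of Grassmannians of lines: irreducibility
-/

set_option autoImplicit false

namespace Pool.Agent.Lib.MP_e005b4_ag

open MvPolynomial Matrix
open scoped LinearAlgebra.Projectivization

/-- A form which vanishes along a polynomial curve outside the zeros of a polynomial vanishes at the
centre of the curve. -/
theorem limit_zero_m {ι : Type} (F : MvPolynomial ι ℂ) (q : ι → Polynomial ℂ) (m : Polynomial ℂ)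
    (hm : m ≠ 0) (h : ∀ ε : ℂ, m.eval ε ≠ 0 → eval (fun i => (q i).eval ε) F = 0) :
    eval (fun i => (q i).eval 0) F = 0 := by
  have h1 : ∀ ε : ℂ, (MvPolynomial.aeval q F).eval ε = eval (fun i => (q i).eval ε) F := by
    intro ε
    have h2 := MvPolynomial.eval₂_comp_left (Polynomial.evalRingHom ε) (algebraMap ℂ (Polynomial ℂ)) q F
    rw [MvPolynomial.aeval_def]
    rw [Polynomial.coe_evalRingHom] at h2
    rw [h2]
    have h3 : (Polynomial.evalRingHom ε).comp (algebraMap ℂ (Polynomial ℂ)) = RingHom.id ℂ := by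
      ext x
      simp
    rw [h3]
    rfl
  have h2 : MvPolynomial.aeval q F * m = 0 := by
    apply Polynomial.funext
    intro ε
    rw [Polynomial.eval_mul, Polynomial.eval_zero]
    by_cases hε : m.eval ε = 0
    · rw [hε, mul_zero]
    · rw [h1, h ε hε, zero_mul]
  rw [← h1, (mul_eq_zero.1 h2).resolve_right hm, Polynomial.eval_zero]

theorem rank_three {n : ℕ} (r₁ r₂ r₃ : Fin n → ℂ) (T : Matrix (Fin n) (Fin n) ℂ)
    (h : ∀ a : Fin n → ℂ, r₁ ⬝ᵥ a = 0 → r₂ ⬝ᵥ a = 0 → r₃ ⬝ᵥ a = 0 → T *ᵥ a = 0) : T.rank ≤ 3 := by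
  have h1 : LinearMap.ker (Matrix.of ![r₁, r₂, r₃]).mulVecLin ≤ LinearMap.ker T.mulVecLin := by
    intro a ha
    rw [LinearMap.mem_ker, Matrix.mulVecLin_apply] at ha ⊢
    exact h a (congrFun ha 0) (congrFun ha 1) (congrFun ha 2)
  have h2 := Submodule.finrank_mono h1
  have h3 := T.mulVecLin.finrank_range_add_finrank_ker
  have h4 := (Matrix.of ![r₁, r₂, r₃]).mulVecLin.finrank_range_add_finrank_ker
  have h5 : (Matrix.of ![r₁, r₂, r₃]).rank ≤ 3 := Matrix.rank_le_height _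
  unfold Matrix.rank at h5 ⊢
  omega

/-- The pencil spanned by `B₁` and `B₂` has rank at least four. -/
def PencilRank {n : ℕ} (B₁ B₂ : Matrix (Fin n) (Fin n) ℂ) : Prop :=
  ∀ a b : ℂ, (a ≠ 0 ∨ b ≠ 0) → 4 ≤ (a • B₁ + b • B₂).rank

theorem good_exists {n : ℕ} {B₁ B₂ : Matrix (Fin n) (Fin n) ℂ} (hr : PencilRank B₁ B₂)
    (v : Fin n → ℂ) : ∃ a : Fin n → ℂ, v ⬝ᵥ (B₁ *ᵥ a) = 0 ∧ v ⬝ᵥ (B₂ *ᵥ a) = 0 ∧
      ∃ k l, (B₁ *ᵥ a) k * (B₂ *ᵥ a) l - (B₁ *ᵥ a) l * (B₂ *ᵥ a) k ≠ 0 := by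
  by_contra hno
  push Not at hno
  by_cases h0 : ∀ a : Fin n → ℂ, v ⬝ᵥ (B₁ *ᵥ a) = 0 → v ⬝ᵥ (B₂ *ᵥ a) = 0 → B₁ *ᵥ a = 0
  · have h1 := rank_three (v ᵥ* B₁) (v ᵥ* B₂) 0 B₁ (fun a h1 h2 _ => by
      rw [← Matrix.dotProduct_mulVec] at h1 h2
      exact h0 a h1 h2)
    have h2 := hr 1 0 (Or.inl one_ne_zero)
    rw [one_smul, zero_smul, add_zero] at h2
    omega
  · push Not at h0
    obtain ⟨a0, h1, h2, h3⟩ := h0
    obtain ⟨k0, hk0⟩ := Function.ne_iff.mp h3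
    rw [Pi.zero_apply] at hk0
    obtain ⟨c, hc⟩ : ∃ c : ℂ, c = (B₂ *ᵥ a0) k0 / (B₁ *ᵥ a0) k0 := ⟨_, rfl⟩
    have hT : ∀ (a : Fin n → ℂ) l, (((-c) • B₁ + (1 : ℂ) • B₂) *ᵥ a) l =
        (B₂ *ᵥ a) l - c * (B₁ *ᵥ a) l := by
      intro a l
      rw [Matrix.add_mulVec, Matrix.smul_mulVec, Matrix.smul_mulVec, Pi.add_apply, Pi.smul_apply,
        Pi.smul_apply, smul_eq_mul, smul_eq_mul]
      ring
    have h4 := rank_three (v ᵥ* B₁) (v ᵥ* B₂) (((-c) • B₁ + (1 : ℂ) • B₂) k0)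
      ((-c) • B₁ + (1 : ℂ) • B₂) (fun a h5 h6 h7 => by
        rw [← Matrix.dotProduct_mulVec] at h5 h6
        have h8 : (B₂ *ᵥ a) k0 - c * (B₁ *ᵥ a) k0 = 0 := by
          rw [← hT]
          exact h7
        funext l
        rw [hT, Pi.zero_apply]
        have e1 := hno (a0 + a) (by rw [Matrix.mulVec_add, dotProduct_add, h1, h5, add_zero])
          (by rw [Matrix.mulVec_add, dotProduct_add, h2, h6, add_zero]) k0 l
        have e2 := hno (a0 - a) (by rw [Matrix.mulVec_sub, dotProduct_sub, h1, h5, sub_zero])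
          (by rw [Matrix.mulVec_sub, dotProduct_sub, h2, h6, sub_zero]) k0 l
        have e3 := hno a0 h1 h2 k0 l
        simp only [Matrix.mulVec_add, Matrix.mulVec_sub, Pi.add_apply, Pi.sub_apply] at e1 e2
        have hc' : (B₂ *ᵥ a0) k0 = c * (B₁ *ᵥ a0) k0 := by
          rw [hc]
          field_simp
        have e4 : (B₂ *ᵥ a0) l = c * (B₁ *ᵥ a0) l := by
          apply mul_left_cancel₀ hk0
          rw [hc'] at e3
          linear_combination e3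
        rw [hc', e4] at e1 e2
        have h8' : (B₂ *ᵥ a) k0 = c * (B₁ *ᵥ a) k0 := sub_eq_zero.1 h8
        rw [h8'] at e1 e2
        apply (mul_eq_zero.1 _).resolve_left hk0
        linear_combination (1 / 2 : ℂ) * e1 - (1 / 2 : ℂ) * e2)
    have h5 := hr (-c) 1 (Or.inr one_ne_zero)
    omega

theorem grassSec_nonempty {n : ℕ} {B₁ B₂ : Matrix (Fin n) (Fin n) ℂ} (hr : PencilRank B₁ B₂) :
    (grassSec B₁ B₂).Nonempty := by
  have hn : 4 ≤ n := (hr 1 0 (Or.inl one_ne_zero)).trans (Matrix.rank_le_height _)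
  by_contra hno
  rw [Set.not_nonempty_iff_eq_empty] at hno
  obtain ⟨i0, hi0⟩ : ∃ i0 : Fin n, i0 = ⟨0, by omega⟩ := ⟨_, rfl⟩
  obtain ⟨v, hv⟩ : ∃ v : Fin n → ℂ, v = Pi.single i0 1 := ⟨_, rfl⟩
  have h1 : ∀ a : Fin n → ℂ, v ⬝ᵥ (B₁ *ᵥ a) = 0 → v ⬝ᵥ (B₂ *ᵥ a) = 0 → ∀ j, v i0 * a j - v j * a i0 = 0 := by
    intro a h1 h2 j
    by_contra hne
    have hw : (fun ij : Fin n × Fin n => v ij.1 * a ij.2 - v ij.2 * a ij.1) ≠ 0 := by
      intro h3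
      exact hne (congrFun h3 (i0, j))
    have h3 : Projectivization.mk ℂ _ hw ∈ grassSec B₁ B₂ := by
      rw [← mem_cone_iff hw, mem_cone_grassSec]
      exact ⟨v, a, fun i j => rfl, h1, h2⟩
    rw [hno] at h3
    exact h3
  have h2 := rank_three (v ᵥ* B₁) (v ᵥ* B₂) v (1 : Matrix (Fin n) (Fin n) ℂ) (fun a h3 h4 h5 => by
    rw [← Matrix.dotProduct_mulVec] at h3 h4
    rw [Matrix.one_mulVec]
    rw [hv, single_one_dotProduct] at h5
    funext j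
    have h6 := h1 a h3 h4 j
    rw [hv, Pi.single_eq_same, h5, mul_zero, sub_zero, one_mul] at h6
    exact h6)
  rw [Matrix.rank_one, Fintype.card_fin] at h2
  omega

/-- The polynomials of the parametrization. -/
noncomputable def dp {n : ℕ} (c : Fin 4) (B : Matrix (Fin n) (Fin n) ℂ) :
    MvPolynomial (Fin 4 × Fin n) ℂ :=
  ∑ k, X (c, k) * ∑ i, C (B k i) * X (0, i)

noncomputable def vp {n : ℕ} (B₁ B₂ : Matrix (Fin n) (Fin n) ℂ) (j : Fin n) :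
    MvPolynomial (Fin 4 × Fin n) ℂ :=
  (dp 2 B₁ * dp 3 B₂ - dp 2 B₂ * dp 3 B₁) * X (1, j) -
    (dp 1 B₁ * dp 3 B₂ - dp 1 B₂ * dp 3 B₁) * X (2, j) +
    (dp 1 B₁ * dp 2 B₂ - dp 1 B₂ * dp 2 B₁) * X (3, j)

theorem eval_dp {n : ℕ} (c : Fin 4) (B : Matrix (Fin n) (Fin n) ℂ) (x : Fin 4 × Fin n → ℂ) :
    eval x (dp c B) = (fun k => x (c, k)) ⬝ᵥ (B *ᵥ fun i => x (0, i)) := by
  simp only [dp, map_sum, map_mul, eval_X, eval_C]
  rfl

/-- The vector of the parametrization. -/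
def vv {n : ℕ} (b₁ b₂ w f g : Fin n → ℂ) : Fin n → ℂ := fun j =>
  ((f ⬝ᵥ b₁) * (g ⬝ᵥ b₂) - (f ⬝ᵥ b₂) * (g ⬝ᵥ b₁)) * w j -
    ((w ⬝ᵥ b₁) * (g ⬝ᵥ b₂) - (w ⬝ᵥ b₂) * (g ⬝ᵥ b₁)) * f j +
    ((w ⬝ᵥ b₁) * (f ⬝ᵥ b₂) - (w ⬝ᵥ b₂) * (f ⬝ᵥ b₁)) * g j

theorem vv_eq {n : ℕ} (b₁ b₂ w f g : Fin n → ℂ) : vv b₁ b₂ w f g =
    ((f ⬝ᵥ b₁) * (g ⬝ᵥ b₂) - (f ⬝ᵥ b₂) * (g ⬝ᵥ b₁)) • w -
    ((w ⬝ᵥ b₁) * (g ⬝ᵥ b₂) - (w ⬝ᵥ b₂) * (g ⬝ᵥ b₁)) • f +
    ((w ⬝ᵥ b₁) * (f ⬝ᵥ b₂) - (w ⬝ᵥ b₂) * (f ⬝ᵥ b₁)) • g := rfl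

theorem vv_dot {n : ℕ} (b₁ b₂ w f g : Fin n → ℂ) :
    vv b₁ b₂ w f g ⬝ᵥ b₁ = 0 ∧ vv b₁ b₂ w f g ⬝ᵥ b₂ = 0 := by
  rw [vv_eq]
  constructor
  · rw [add_dotProduct, sub_dotProduct, smul_dotProduct, smul_dotProduct, smul_dotProduct, smul_eq_mul,
      smul_eq_mul, smul_eq_mul]
    ring
  · rw [add_dotProduct, sub_dotProduct, smul_dotProduct, smul_dotProduct, smul_dotProduct, smul_eq_mul,
      smul_eq_mul, smul_eq_mul]
    ring

theorem eval_vp {n : ℕ} (B₁ B₂ : Matrix (Fin n) (Fin n) ℂ) (j : Fin n) (x : Fin 4 × Fin n → ℂ) :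
    eval x (vp B₁ B₂ j) = vv (B₁ *ᵥ fun i => x (0, i)) (B₂ *ᵥ fun i => x (0, i)) (fun k => x (1, k))
      (fun k => x (2, k)) (fun k => x (3, k)) j := by
  simp only [vp, map_add, map_sub, map_mul, eval_dp, eval_X]
  rfl

theorem vv_cover {n : ℕ} (b₁ b₂ v : Fin n → ℂ) (h1 : v ⬝ᵥ b₁ = 0) (h2 : v ⬝ᵥ b₂ = 0) (k l : Fin n)
    (hkl : b₁ k * b₂ l - b₁ l * b₂ k ≠ 0) : ∃ f g : Fin n → ℂ, vv b₁ b₂ v f g = v := by
  obtain ⟨m, hm⟩ : ∃ m : ℂ, m = b₁ k * b₂ l - b₁ l * b₂ k := ⟨_, rfl⟩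
  rw [← hm] at hkl
  refine ⟨m⁻¹ • (b₂ l • Pi.single k 1 - b₂ k • Pi.single l 1),
    m⁻¹ • (b₁ k • Pi.single l 1 - b₁ l • Pi.single k 1), ?_⟩
  have h3 : (m⁻¹ • (b₂ l • Pi.single k 1 - b₂ k • Pi.single l 1) : Fin n → ℂ) ⬝ᵥ b₁ = 1 := by
    rw [smul_dotProduct, sub_dotProduct, smul_dotProduct, smul_dotProduct, single_one_dotProduct,
      single_one_dotProduct, smul_eq_mul, smul_eq_mul, smul_eq_mul]
    field_simp
    rw [hm]
    ring
  have h4 : (m⁻¹ • (b₂ l • Pi.single k 1 - b₂ k • Pi.single l 1) : Fin n → ℂ) ⬝ᵥ b₂ = 0 := by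
    rw [smul_dotProduct, sub_dotProduct, smul_dotProduct, smul_dotProduct, single_one_dotProduct,
      single_one_dotProduct, smul_eq_mul, smul_eq_mul, smul_eq_mul]
    ring
  have h5 : (m⁻¹ • (b₁ k • Pi.single l 1 - b₁ l • Pi.single k 1) : Fin n → ℂ) ⬝ᵥ b₁ = 0 := by
    rw [smul_dotProduct, sub_dotProduct, smul_dotProduct, smul_dotProduct, single_one_dotProduct,
      single_one_dotProduct, smul_eq_mul, smul_eq_mul, smul_eq_mul]
    ring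
  have h6 : (m⁻¹ • (b₁ k • Pi.single l 1 - b₁ l • Pi.single k 1) : Fin n → ℂ) ⬝ᵥ b₂ = 1 := by
    rw [smul_dotProduct, sub_dotProduct, smul_dotProduct, smul_dotProduct, single_one_dotProduct,
      single_one_dotProduct, smul_eq_mul, smul_eq_mul, smul_eq_mul]
    field_simp
    rw [hm]
  rw [vv_eq, h1, h2, h3, h4, h5, h6]
  simp

/-- The codimension two section is a projective variety if the pencil has rank at least four. -/
theorem grassSec_variety {n : ℕ} {B₁ B₂ : Matrix (Fin n) (Fin n) ℂ} (h1 : B₁ᵀ = -B₁) (h2 : B₂ᵀ = -B₂)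
    (hr : PencilRank B₁ B₂) : IsProjectiveVariety (grassSec B₁ B₂) := by
  refine ⟨grassSec_closed h1 h2, irred_of_param (grassSec_nonempty hr) (σ := Fin 4 × Fin n)
    (fun ij => X (0, ij.1) * vp B₁ B₂ ij.2 - X (0, ij.2) * vp B₁ B₂ ij.1) ?_ ?_⟩
  · intro x
    rw [mem_cone_grassSec]
    have h3 := vv_dot (B₁ *ᵥ fun i => x (0, i)) (B₂ *ᵥ fun i => x (0, i)) (fun k => x (1, k))
      (fun k => x (2, k)) (fun k => x (3, k))
    refine ⟨fun i => x (0, i), vv (B₁ *ᵥ fun i => x (0, i)) (B₂ *ᵥ fun i => x (0, i))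
      (fun k => x (1, k)) (fun k => x (2, k)) (fun k => x (3, k)), fun i j => ?_, ?_, ?_⟩
    · simp only [map_sub, map_mul, eval_X, eval_vp]
    · rw [skew_dot h1, h3.1, neg_zero]
    · rw [skew_dot h2, h3.2, neg_zero]
  · intro F d hF hvan p hp
    obtain ⟨u, v, h3, h4, h5⟩ := hp
    have hgood : ∀ u : Fin n → ℂ, u ⬝ᵥ (B₁ *ᵥ v) = 0 → u ⬝ᵥ (B₂ *ᵥ v) = 0 →
        (∃ k l, (B₁ *ᵥ u) k * (B₂ *ᵥ u) l - (B₁ *ᵥ u) l * (B₂ *ᵥ u) k ≠ 0) →
        eval (fun ij : Fin n × Fin n => u ij.1 * v ij.2 - u ij.2 * v ij.1) F = 0 := by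
      rintro u hu1 hu2 ⟨k, l, hkl⟩
      obtain ⟨f, g, hfg⟩ := vv_cover (B₁ *ᵥ u) (B₂ *ᵥ u) v
        (by rw [skew_dot h1, hu1, neg_zero]) (by rw [skew_dot h2, hu2, neg_zero]) k l hkl
      have h6 := hvan (fun ci => (![u, v, f, g] ci.1) ci.2)
      have h7 : (fun ij : Fin n × Fin n => u ij.1 * v ij.2 - u ij.2 * v ij.1) = fun ij =>
          eval (fun ci => (![u, v, f, g] ci.1) ci.2)
            (X (0, ij.1) * vp B₁ B₂ ij.2 - X (0, ij.2) * vp B₁ B₂ ij.1) := by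
        funext ij
        simp only [map_sub, map_mul, eval_X, eval_vp]
        show u ij.1 * v ij.2 - u ij.2 * v ij.1 =
          u ij.1 * vv (B₁ *ᵥ u) (B₂ *ᵥ u) v f g ij.2 - u ij.2 * vv (B₁ *ᵥ u) (B₂ *ᵥ u) v f g ij.1
        rw [hfg]
      rw [h7]
      exact h6
    have h6 : p.rep = fun ij : Fin n × Fin n => u ij.1 * v ij.2 - u ij.2 * v ij.1 := by
      funext ⟨i, j⟩
      exact h3 i j
    rw [h6]
    obtain ⟨a, ha1, ha2, k, l, hkl⟩ := good_exists hr v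
    obtain ⟨m, hm⟩ : ∃ m : Polynomial ℂ, m =
        (Polynomial.C ((B₁ *ᵥ u) k) + Polynomial.X * Polynomial.C ((B₁ *ᵥ a) k)) *
        (Polynomial.C ((B₂ *ᵥ u) l) + Polynomial.X * Polynomial.C ((B₂ *ᵥ a) l)) -
        (Polynomial.C ((B₁ *ᵥ u) l) + Polynomial.X * Polynomial.C ((B₁ *ᵥ a) l)) *
        (Polynomial.C ((B₂ *ᵥ u) k) + Polynomial.X * Polynomial.C ((B₂ *ᵥ a) k)) := ⟨_, rfl⟩
    have hme : ∀ ε : ℂ, m.eval ε =
        ((B₁ *ᵥ u) k + ε * (B₁ *ᵥ a) k) * ((B₂ *ᵥ u) l + ε * (B₂ *ᵥ a) l) -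
        ((B₁ *ᵥ u) l + ε * (B₁ *ᵥ a) l) * ((B₂ *ᵥ u) k + ε * (B₂ *ᵥ a) k) := by
      intro ε
      rw [hm]
      simp only [Polynomial.eval_sub, Polynomial.eval_mul, Polynomial.eval_add, Polynomial.eval_C,
        Polynomial.eval_X]
    have hm0 : m ≠ 0 := by
      intro h0
      have e1 := hme 1
      have e2 := hme (-1)
      have e3 := hme 0
      rw [h0, Polynomial.eval_zero] at e1 e2 e3
      apply hkl
      linear_combination -(1 / 2 : ℂ) * e1 - (1 / 2 : ℂ) * e2 + e3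
    have h7 := limit_zero_m F (fun ij => Polynomial.C (u ij.1 * v ij.2 - u ij.2 * v ij.1) +
      Polynomial.X * Polynomial.C (a ij.1 * v ij.2 - a ij.2 * v ij.1)) m hm0 (fun ε hε => by
        have h8 := hgood (u + ε • a) (by
          rw [add_dotProduct, smul_dotProduct, h4, skew_dot h1 a v, ha1, neg_zero, smul_zero, add_zero])
          (by
          rw [add_dotProduct, smul_dotProduct, h5, skew_dot h2 a v, ha2, neg_zero, smul_zero, add_zero])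
          ⟨k, l, by
            rw [hme] at hε
            rw [Matrix.mulVec_add, Matrix.mulVec_add, Matrix.mulVec_smul, Matrix.mulVec_smul]
            exact hε⟩
        have h9 : (fun ij : Fin n × Fin n => Polynomial.eval ε
            (Polynomial.C (u ij.1 * v ij.2 - u ij.2 * v ij.1) +
              Polynomial.X * Polynomial.C (a ij.1 * v ij.2 - a ij.2 * v ij.1))) =
            fun ij => (u + ε • a) ij.1 * v ij.2 - (u + ε • a) ij.2 * v ij.1 := by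
          funext ij
          simp only [Polynomial.eval_add, Polynomial.eval_mul, Polynomial.eval_C, Polynomial.eval_X,
            Pi.add_apply, Pi.smul_apply, smul_eq_mul]
          ring
        rw [h9]
        exact h8)
    have h8 : (fun ij : Fin n × Fin n => Polynomial.eval 0
        (Polynomial.C (u ij.1 * v ij.2 - u ij.2 * v ij.1) +
          Polynomial.X * Polynomial.C (a ij.1 * v ij.2 - a ij.2 * v ij.1))) =
        fun ij => u ij.1 * v ij.2 - u ij.2 * v ij.1 := by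
      funext ij
      simp
    rw [h8] at h7
    exact h7

end Pool.Agent.Lib.MP_e005b4_ag
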