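import Pool.Agent.Lib.MP_e005b4_ag.Sec.Segre

/-!
# Two alternating forms: a Nullstellensatz for codimension two
-/

set_option autoImplicit false

namespace Pool.Agent.Lib.MP_e005b4_ag

open Matrix

variable {E : Type*} [AddCommGroup E] [Module ℂ E]

/-- A functional vanishing on the common kernel of two functionals is a combination of them. -/
theorem comb_of_ker (s t1 t2 : E →ₗ[ℂ] ℂ) (h : ∀ v, t1 v = 0 → t2 v = 0 → s v = 0) :
    ∃ a b : ℂ, s = a • t1 + b • t2 := by
  have h1 : s ∈ Submodule.span ℂ (Set.range ![t1, t2]) := by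
    apply mem_span_of_iInf_ker_le_ker
    intro v hv
    rw [Submodule.mem_iInf] at hv
    exact h v (hv 0) (hv 1)
  rw [Matrix.range_cons, Matrix.range_cons, Matrix.range_empty, Set.union_empty, Set.singleton_union,
    Submodule.mem_span_pair] at h1
  obtain ⟨a, b, hab⟩ := h1
  exact ⟨a, b, hab.symm⟩

theorem skew_swap (s : E →ₗ[ℂ] E →ₗ[ℂ] ℂ) (hs : ∀ u, s u u = 0) (u v : E) : s u v = -s v u := by
  have h := hs (u + v)
  simp only [map_add, LinearMap.add_apply, hs, zero_add, add_zero] at h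
  linear_combination h

/-- The case where some pair of functionals `t1 u0, t2 u0` is dual to a pair of vectors. -/
theorem nd_indep (s t1 t2 : E →ₗ[ℂ] E →ₗ[ℂ] ℂ) (hs : ∀ u, s u u = 0) (h1 : ∀ u, t1 u u = 0)
    (h2 : ∀ u, t2 u u = 0) (H : ∀ u v, t1 u v = 0 → t2 u v = 0 → s u v = 0) (u0 f1 f2 : E)
    (h11 : t1 u0 f1 = 1) (h12 : t1 u0 f2 = 0) (h21 : t2 u0 f1 = 0) (h22 : t2 u0 f2 = 1) :
    ∃ a b : ℂ, s = a • t1 + b • t2 := by
  obtain ⟨a, b, hab⟩ := comb_of_ker (s u0) (t1 u0) (t2 u0) (H u0)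
  refine ⟨a, b, ?_⟩
  obtain ⟨r, hr⟩ : ∃ r : E →ₗ[ℂ] E →ₗ[ℂ] ℂ, r = s - (a • t1 + b • t2) := ⟨_, rfl⟩
  rw [← sub_eq_zero, ← hr]
  have hr' : ∀ u v, r u v = s u v - (a * t1 u v + b * t2 u v) := by
    intro u v
    rw [hr]
    simp
  have hru : ∀ u, r u u = 0 := by
    intro u
    rw [hr', hs, h1, h2]
    ring
  have hr0 : ∀ v, r u0 v = 0 := by
    intro v
    rw [hr', hab]
    simp
  have hH : ∀ u v, t1 u v = 0 → t2 u v = 0 → r u v = 0 := by
    intro u v h3 h4
    rw [hr', h3, h4, H u v h3 h4]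
    ring
  -- the values of `r w` are combinations of `t1 u0` and `t2 u0`
  have hcl : ∀ w v, t1 u0 v = 0 → t2 u0 v = 0 → r w v = 0 := by
    intro w v h3 h4
    have hD : ∀ ε : ℂ, ε ≠ 0 →
        (t1 (u0 + ε • w) f1) * ((t2 (u0 + ε • w) f2) * r w v - (t2 (u0 + ε • w) v) * r w f2) -
        (t1 (u0 + ε • w) f2) * ((t2 (u0 + ε • w) f1) * r w v - (t2 (u0 + ε • w) v) * r w f1) +
        (t1 (u0 + ε • w) v) * ((t2 (u0 + ε • w) f1) * r w f2 - (t2 (u0 + ε • w) f2) * r w f1) = 0 := by
      intro ε hε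
      obtain ⟨α, β, hαβ⟩ := comb_of_ker (r (u0 + ε • w)) (t1 (u0 + ε • w)) (t2 (u0 + ε • w))
        (hH (u0 + ε • w))
      have hw : ∀ z, ε * r w z = α * t1 (u0 + ε • w) z + β * t2 (u0 + ε • w) z := by
        intro z
        have h5 := LinearMap.congr_fun hαβ z
        rw [map_add, map_smul, LinearMap.add_apply, hr0, zero_add, LinearMap.smul_apply,
          smul_eq_mul] at h5
        rw [h5, LinearMap.add_apply, LinearMap.smul_apply, LinearMap.smul_apply, smul_eq_mul,
          smul_eq_mul]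
      have e1 := hw f1
      have e2 := hw f2
      have e3 := hw v
      apply (mul_eq_zero.1 _).resolve_left hε
      generalize t1 (u0 + ε • w) f1 = x1 at *
      generalize t1 (u0 + ε • w) f2 = x2 at *
      generalize t1 (u0 + ε • w) v = x3 at *
      generalize t2 (u0 + ε • w) f1 = y1 at *
      generalize t2 (u0 + ε • w) f2 = y2 at *
      generalize t2 (u0 + ε • w) v = y3 at *
      linear_combination (x2 * y3 - x3 * y2) * e1 + (x3 * y1 - x1 * y3) * e2 + (x1 * y2 - x2 * y1) * e3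
    have d1 := hD 1 one_ne_zero
    have d2 := hD (-1) (neg_ne_zero.2 one_ne_zero)
    have d3 := hD 2 two_ne_zero
    simp only [map_add, map_smul, LinearMap.add_apply, LinearMap.smul_apply, smul_eq_mul, h11, h12, h21,
      h22, h3, h4, zero_add] at d1 d2 d3
    linear_combination (1 : ℂ) * d1 + (1 / 3 : ℂ) * d2 - (1 / 3 : ℂ) * d3
  have hform : ∀ w v, r w v = r w f1 * t1 u0 v + r w f2 * t2 u0 v := by
    intro w v
    have h5 := hcl w (v - (t1 u0 v) • f1 - (t2 u0 v) • f2) (by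
      simp only [map_sub, map_smul, smul_eq_mul, h11, h12]
      ring) (by
      simp only [map_sub, map_smul, smul_eq_mul, h21, h22]
      ring)
    simp only [map_sub, map_smul, smul_eq_mul] at h5
    linear_combination h5
  -- the constant
  have hc : r f1 f2 = 0 := by
    have h6 := hH (f1 + (-(t2 f1 f2)) • u0) (f2 + (t1 f1 f2) • u0) (by
      have h7 := skew_swap t1 h1 f1 u0
      simp only [map_add, map_smul, LinearMap.add_apply, LinearMap.smul_apply, smul_eq_mul, h1, h12, h7,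
        h11]
      ring) (by
      have h7 := skew_swap t2 h2 f1 u0
      simp only [map_add, map_smul, LinearMap.add_apply, LinearMap.smul_apply, smul_eq_mul, h2, h22, h7,
        h21]
      ring)
    have h8 : r f1 u0 = 0 := by rw [skew_swap r hru, hr0, neg_zero]
    simpa only [map_add, map_smul, LinearMap.add_apply, LinearMap.smul_apply, smul_eq_mul, hr0, h8,
      mul_zero, add_zero] using h6
  have hf1 : ∀ w, r w f1 = 0 := by
    intro w
    rw [skew_swap r hru, hform f1 w, hru, hc]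
    ring
  have hf2 : ∀ w, r w f2 = 0 := by
    intro w
    rw [skew_swap r hru, hform f2 w, hru, skew_swap r hru f2 f1, hc]
    ring
  ext w v
  rw [hform, hf1, hf2]
  simp

/-- The case where all pairs of functionals are dependent. -/
theorem nd_dep (s t1 t2 : E →ₗ[ℂ] E →ₗ[ℂ] ℂ) (h1 : ∀ u, t1 u u = 0) (h2 : ∀ u, t2 u u = 0)
    (H : ∀ u v, t1 u v = 0 → t2 u v = 0 → s u v = 0)
    (hd : ∀ u f g, t1 u f * t2 u g = t1 u g * t2 u f) :
    ∃ a b : ℂ, s = a • t1 + b • t2 := by
  by_cases h0 : ∀ u v, t1 u v = 0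
  · have h3 : ∀ u, ∃ c : ℂ, s u = c • t2 u := by
      intro u
      obtain ⟨a, b, hab⟩ := comb_of_ker (s u) (t1 u) (t2 u) (H u)
      refine ⟨b, ?_⟩
      rw [hab]
      ext v
      simp [h0]
    obtain ⟨c, hc⟩ := prop_map s t2 h3
    refine ⟨0, c, ?_⟩
    rw [hc, zero_smul, zero_add]
  · push Not at h0
    obtain ⟨u1, f, hf⟩ := h0
    obtain ⟨c, hc⟩ : ∃ c : ℂ, c = t2 u1 f / t1 u1 f := ⟨_, rfl⟩
    obtain ⟨t, ht⟩ : ∃ t : E →ₗ[ℂ] E →ₗ[ℂ] ℂ, t = t2 - c • t1 := ⟨_, rfl⟩
    have ht' : ∀ u v, t u v = t2 u v - c * t1 u v := by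
      intro u v
      rw [ht]
      simp
    have htu : ∀ u, t u u = 0 := by
      intro u
      rw [ht', h1, h2]
      ring
    have ht1 : ∀ v, t u1 v = 0 := by
      intro v
      rw [ht', hc]
      field_simp
      linear_combination hd u1 f v
    have hd' : ∀ u g g', t1 u g * t u g' = t1 u g' * t u g := by
      intro u g g'
      rw [ht', ht']
      linear_combination hd u g g'
    have key : ∀ w v, t1 u1 f * t w v = t1 u1 v * t w f := by
      intro w v
      have d1 := hd' (u1 + w) f v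
      have d2 := hd' (u1 - w) f v
      simp only [map_add, map_sub, LinearMap.add_apply, LinearMap.sub_apply, ht1, zero_add,
        zero_sub] at d1 d2
      linear_combination (1 / 2 : ℂ) * d1 - (1 / 2 : ℂ) * d2
    have hwf : ∀ w, t w f = 0 := by
      intro w
      rw [skew_swap t htu, neg_eq_zero]
      have h3 := key f w
      rw [htu f, mul_zero] at h3
      exact (mul_eq_zero.1 h3).resolve_left hf
    have ht0 : ∀ w v, t w v = 0 := by
      intro w v
      have h3 := key w v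
      rw [hwf w, mul_zero] at h3
      exact (mul_eq_zero.1 h3).resolve_left hf
    have h3 : ∀ u, ∃ c : ℂ, s u = c • t1 u := by
      intro u
      obtain ⟨a, b, hab⟩ := comb_of_ker (s u) (t1 u) (t2 u) (H u)
      refine ⟨a + b * c, ?_⟩
      rw [hab]
      ext v
      have h4 : t2 u v = c * t1 u v := by
        have h5 := ht0 u v
        rw [ht'] at h5
        linear_combination h5
      simp only [LinearMap.add_apply, LinearMap.smul_apply, smul_eq_mul, h4]
      ring
    obtain ⟨a, ha⟩ := prop_map s t1 h3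
    refine ⟨a, 0, ?_⟩
    rw [ha, zero_smul, add_zero]

/-- An alternating form which vanishes on the pairs killed by two alternating forms is a combination
of the two forms. -/
theorem nd_main (s t1 t2 : E →ₗ[ℂ] E →ₗ[ℂ] ℂ) (hs : ∀ u, s u u = 0) (h1 : ∀ u, t1 u u = 0)
    (h2 : ∀ u, t2 u u = 0) (H : ∀ u v, t1 u v = 0 → t2 u v = 0 → s u v = 0) :
    ∃ a b : ℂ, s = a • t1 + b • t2 := by
  by_cases hd : ∀ u f g, t1 u f * t2 u g = t1 u g * t2 u f
  · exact nd_dep s t1 t2 h1 h2 H hd
  · push Not at hd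
    obtain ⟨u, f, g, hfg⟩ := hd
    have hΔ : t1 u f * t2 u g - t1 u g * t2 u f ≠ 0 := sub_ne_zero.2 hfg
    obtain ⟨Δ, hΔ'⟩ : ∃ Δ : ℂ, Δ = t1 u f * t2 u g - t1 u g * t2 u f := ⟨_, rfl⟩
    rw [← hΔ'] at hΔ
    refine nd_indep s t1 t2 hs h1 h2 H u ((Δ⁻¹ * t2 u g) • f - (Δ⁻¹ * t2 u f) • g)
      ((Δ⁻¹ * t1 u f) • g - (Δ⁻¹ * t1 u g) • f) ?_ ?_ ?_ ?_
    · simp only [map_sub, map_smul, smul_eq_mul]
      field_simp
      rw [hΔ']
      ring
    · simp only [map_sub, map_smul, smul_eq_mul]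
      ring
    · simp only [map_sub, map_smul, smul_eq_mul]
      ring
    · simp only [map_sub, map_smul, smul_eq_mul]
      field_simp
      rw [hΔ']

end Pool.Agent.Lib.MP_e005b4_ag
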