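import Pool.Agent.Lib.MP_e005b4_ag.Sec.Grass
import Pool.Agent.Lib.MP_e005b4_ag.Sec.SegreVar

/-!
# Codimension two sections of Grassmannians of lines: rank equals border rank
-/

set_option autoImplicit false

namespace Pool.Agent.Lib.MP_e005b4_ag

open MvPolynomial Matrix
open scoped LinearAlgebra.Projectivization

/-- The section of the Grassmannian `G(2, n)` by the forms `B₁` and `B₂`: the points `[u ∧ v]`, with
the coordinates `u i v j - u j v i`, such that `B₁(u, v) = B₂(u, v) = 0`. -/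
def grassSec {n : ℕ} (B₁ B₂ : Matrix (Fin n) (Fin n) ℂ) : Set (PSpace (Fin n × Fin n)) :=
  {p | ∃ u v : Fin n → ℂ, (∀ i j, p.rep (i, j) = u i * v j - u j * v i) ∧
    u ⬝ᵥ (B₁ *ᵥ v) = 0 ∧ u ⬝ᵥ (B₂ *ᵥ v) = 0}

theorem mem_cone_grassSec {n : ℕ} {B₁ B₂ : Matrix (Fin n) (Fin n) ℂ} {w : Fin n × Fin n → ℂ} :
    w ∈ cone (grassSec B₁ B₂) ↔ ∃ u v : Fin n → ℂ, (∀ i j, w (i, j) = u i * v j - u j * v i) ∧
      u ⬝ᵥ (B₁ *ᵥ v) = 0 ∧ u ⬝ᵥ (B₂ *ᵥ v) = 0 := by
  refine mem_cone_setOf (P := fun w => ∃ u v : Fin n → ℂ, (∀ i j, w (i, j) = u i * v j - u j * v i) ∧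
      u ⬝ᵥ (B₁ *ᵥ v) = 0 ∧ u ⬝ᵥ (B₂ *ᵥ v) = 0) ?_ ?_
  · exact ⟨0, 0, fun i j => by simp, by simp, by simp⟩
  · rintro c w ⟨u, v, h1, h2, h3⟩
    refine ⟨c • u, v, fun i j => ?_, ?_, ?_⟩
    · rw [Pi.smul_apply, Pi.smul_apply, Pi.smul_apply, h1, smul_eq_mul, smul_eq_mul, smul_eq_mul]
      ring
    · rw [smul_dotProduct, h2, smul_zero]
    · rw [smul_dotProduct, h3, smul_zero]

theorem grass_lin {n : ℕ} {B : Matrix (Fin n) (Fin n) ℂ} (hB : Bᵀ = -B) (u v : Fin n → ℂ) :
    ∑ i, ∑ j, B i j * (u i * v j - u j * v i) = 2 * (u ⬝ᵥ (B *ᵥ v)) := by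
  have h1 : ∀ a b : Fin n → ℂ, ∑ i, ∑ j, B i j * (a i * b j) = a ⬝ᵥ (B *ᵥ b) := by
    intro a b
    rw [dotProduct]
    refine Finset.sum_congr rfl fun i _ => ?_
    rw [Matrix.mulVec, dotProduct, Finset.mul_sum]
    exact Finset.sum_congr rfl fun j _ => by ring
  have h2 : ∀ i j, B i j * (u i * v j - u j * v i) = B i j * (u i * v j) - B i j * (v i * u j) := by
    intro i j
    ring
  simp only [h2, Finset.sum_sub_distrib]
  rw [h1, h1, skew_dot hB v u]
  ring

theorem grassSec_closed {n : ℕ} {B₁ B₂ : Matrix (Fin n) (Fin n) ℂ} (h1 : B₁ᵀ = -B₁) (h2 : B₂ᵀ = -B₂) :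
    IsZariskiClosed (grassSec B₁ B₂) := by
  refine ⟨{F | (∃ i j k l : Fin n, F = X (i, j) * X (k, l) - X (i, k) * X (j, l) + X (i, l) * X (j, k)) ∨
    (∃ i j : Fin n, F = X (i, j) + X (j, i)) ∨
    (∃ B : Matrix (Fin n) (Fin n) ℂ, (B = B₁ ∨ B = B₂) ∧ F = ∑ i, ∑ j, C (B i j) * X (i, j))}, ?_,
    fun p => ?_⟩
  · rintro F (⟨i, j, k, l, rfl⟩ | ⟨i, j, rfl⟩ | ⟨B, -, rfl⟩)
    · exact ⟨2, (((isHomogeneous_X ℂ _).mul (isHomogeneous_X ℂ _)).sub
        ((isHomogeneous_X ℂ _).mul (isHomogeneous_X ℂ _))).add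
        ((isHomogeneous_X ℂ _).mul (isHomogeneous_X ℂ _))⟩
    · exact ⟨1, (isHomogeneous_X ℂ _).add (isHomogeneous_X ℂ _)⟩
    · refine ⟨1, IsHomogeneous.sum _ _ _ fun i _ => IsHomogeneous.sum _ _ _ fun j _ => ?_⟩
      have h2 := (isHomogeneous_C (Fin n × Fin n) (B i j)).mul (isHomogeneous_X ℂ (i, j))
      rwa [zero_add] at h2
  · constructor
    · rintro ⟨u, v, h3, h4, h5⟩ F (⟨i, j, k, l, rfl⟩ | ⟨i, j, rfl⟩ | ⟨B, hB, rfl⟩)
      · simp only [map_sub, map_add, map_mul, eval_X, h3]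
        ring
      · simp only [map_add, eval_X, h3]
        ring
      · simp only [map_sum, map_mul, eval_C, eval_X, h3]
        rcases hB with rfl | rfl
        · rw [grass_lin h1, h4, mul_zero]
        · rw [grass_lin h2, h5, mul_zero]
    · intro h
      have hex : ∃ i0 j0, p.rep (i0, j0) ≠ 0 := by
        by_contra hno
        push Not at hno
        apply p.rep_nonzero
        funext ⟨i, j⟩
        exact hno i j
      obtain ⟨i0, j0, h0⟩ := hex
      have hp : ∀ i j, p.rep (i, j) = (p.rep (i, i0) / p.rep (i0, j0)) * p.rep (j, j0) -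
          (p.rep (j, i0) / p.rep (i0, j0)) * p.rep (i, j0) := by
        intro i j
        have h3 := h _ (Or.inl ⟨i, j, i0, j0, rfl⟩)
        simp only [map_sub, map_add, map_mul, eval_X] at h3
        field_simp
        linear_combination h3
      have hlin : ∀ B : Matrix (Fin n) (Fin n) ℂ, (B = B₁ ∨ B = B₂) →
          2 * ((fun i => p.rep (i, i0) / p.rep (i0, j0)) ⬝ᵥ (B *ᵥ fun j => p.rep (j, j0))) = 0 := by
        intro B hB
        have hB' : Bᵀ = -B := by
          rcases hB with rfl | rfl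
          · exact h1
          · exact h2
        have h3 := h _ (Or.inr (Or.inr ⟨B, hB, rfl⟩))
        simp only [map_sum, map_mul, eval_C, eval_X] at h3
        rw [← grass_lin hB', ← h3]
        exact Finset.sum_congr rfl fun i _ => Finset.sum_congr rfl fun j _ => by rw [hp i j]
      exact ⟨_, _, hp, (mul_eq_zero.1 (hlin _ (Or.inl rfl))).resolve_left two_ne_zero,
        (mul_eq_zero.1 (hlin _ (Or.inr rfl))).resolve_left two_ne_zero⟩

theorem biv_rank {n : ℕ} (x y : Fin n → ℂ) : (biv x y).rank ≤ 2 := by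
  have h1 : biv x y = vecMulVec x y + vecMulVec (-y) x := by
    ext i j
    rw [biv_apply, Matrix.add_apply]
    show _ = x i * y j + (-y i) * x j
    ring
  rw [h1]
  have h2 := mat_rank_add_le (vecMulVec x y) (vecMulVec (-y) x)
  have h3 := Matrix.rank_vecMulVec_le x y
  have h4 := Matrix.rank_vecMulVec_le (-y) x
  omega

/-- The property of the sections of Grassmannians of lines. -/
theorem grassSec_rank {n : ℕ} {B₁ B₂ : Matrix (Fin n) (Fin n) ℂ} (h1 : B₁ᵀ = -B₁) (h2 : B₂ᵀ = -B₂)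
    (p : PSpace (Fin n × Fin n)) : xRank (grassSec B₁ B₂) p = xBorderRank (grassSec B₁ B₂) p := by
  classical
  apply rank_eq_of_secant
  intro r q hq
  have hr : (mat q.rep).rank ≤ 2 * r := by
    refine rank_le_of_closure (fun q' hq' => ?_) hq
    obtain ⟨z, hz, hsum⟩ := exists_sum_of_mem_secantSet hq'
    rw [hsum, mat_sum]
    have h2 : ∀ s : Finset (Fin r), (∑ k ∈ s, mat (z k)).rank ≤ 2 * s.card := by
      intro s
      induction s using Finset.induction_on with
      | empty => simp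
      | insert k s hk ih =>
        rw [Finset.sum_insert hk, Finset.card_insert_of_notMem hk]
        refine (mat_rank_add_le _ _).trans ?_
        have h3 : (mat (z k)).rank ≤ 2 := by
          obtain ⟨u, v, h4, -⟩ := mem_cone_grassSec.1 (hz k)
          have h5 : mat (z k) = biv u v := by
            ext i j
            rw [biv_apply]
            exact h4 i j
          rw [h5]
          exact biv_rank u v
        omega
    have h3 := h2 Finset.univ
    rwa [Finset.card_univ, Fintype.card_fin] at h3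
  have hskew : (mat q.rep)ᵀ = -mat q.rep := by
    ext i j
    rw [Matrix.transpose_apply, Matrix.neg_apply]
    show q.rep (j, i) = -q.rep (i, j)
    have h3 := linear_of_closure (Pi.single (j, i) 1 + Pi.single (i, j) 1) (fun q' hq' => ?_) hq
    · simp only [Pi.add_apply, add_mul, Finset.sum_add_distrib] at h3
      simp only [Pi.single_apply, ite_mul, one_mul, zero_mul, Finset.sum_ite_eq', Finset.mem_univ,
        if_true] at h3
      linear_combination h3
    · obtain ⟨z, hz, hsum⟩ := exists_sum_of_mem_secantSet hq'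
      simp only [Pi.add_apply, add_mul, Finset.sum_add_distrib]
      simp only [Pi.single_apply, ite_mul, one_mul, zero_mul, Finset.sum_ite_eq', Finset.mem_univ,
        if_true]
      rw [hsum, Finset.sum_apply, Finset.sum_apply, ← Finset.sum_add_distrib]
      refine Finset.sum_eq_zero fun k _ => ?_
      obtain ⟨u, v, h4, -⟩ := mem_cone_grassSec.1 (hz k)
      rw [h4, h4]
      ring
  have htr : ∀ B : Matrix (Fin n) (Fin n) ℂ, (B = B₁ ∨ B = B₂) → (mat q.rep * B).trace = 0 := by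
    intro B hB
    have hB' : Bᵀ = -B := by
      rcases hB with rfl | rfl
      · exact h1
      · exact h2
    have h3 : ∑ ij : Fin n × Fin n, B ij.1 ij.2 * q.rep ij = 0 := by
      refine linear_of_closure (fun ij => B ij.1 ij.2) (fun q' hq' => ?_) hq
      obtain ⟨z, hz, hsum⟩ := exists_sum_of_mem_secantSet hq'
      rw [hsum]
      simp only [Finset.sum_apply, Finset.mul_sum]
      rw [Finset.sum_comm]
      refine Finset.sum_eq_zero fun k _ => ?_
      obtain ⟨u, v, h4, h5, h6⟩ := mem_cone_grassSec.1 (hz k)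
      rw [Fintype.sum_prod_type]
      simp only [h4]
      rw [grass_lin hB']
      rcases hB with rfl | rfl
      · rw [h5, mul_zero]
      · rw [h6, mul_zero]
    rw [← neg_eq_zero, ← h3, Fintype.sum_prod_type, Matrix.trace, ← Finset.sum_neg_distrib]
    refine Finset.sum_congr rfl fun i _ => ?_
    rw [Matrix.diag_apply, Matrix.mul_apply, ← Finset.sum_neg_distrib]
    refine Finset.sum_congr rfl fun j _ => ?_
    have h4 : B j i = -B i j := by
      have h5 := congrFun (congrFun hB' i) j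
      rwa [Matrix.transpose_apply, Matrix.neg_apply] at h5
    rw [h4]
    show -(q.rep (i, j) * -B i j) = _
    ring
  obtain ⟨u, v, huv, hsum⟩ := grass_decomp B₁ B₂ h1 h2 r (mat q.rep) hskew hr (htr _ (Or.inl rfl))
    (htr _ (Or.inr rfl))
  refine mem_secantSet_of_sum' (fun k ij => u k ij.1 * v k ij.2 - u k ij.2 * v k ij.1) (fun k => ?_) q ?_
  · rw [mem_cone_grassSec]
    exact ⟨u k, v k, fun i j => rfl, huv k⟩
  · funext ⟨i, j⟩
    have h4 := congrFun (congrFun hsum i) j
    rw [Matrix.sum_apply] at h4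
    rw [Finset.sum_apply]
    simp only [biv_apply] at h4
    exact h4

end Pool.Agent.Lib.MP_e005b4_ag
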