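import Pool.Agent.Lib.MP_e005b4_ag.Sec.Var

/-!
# Rational normal scrolls
-/

set_option autoImplicit false

namespace Pool.Agent.Lib.MP_e005b4_ag

open MvPolynomial Matrix
open scoped LinearAlgebra.Projectivization

section general

variable {ι : Type} [Fintype ι]

/-- Sums of two vectors of the cone lie in the cone over the secant set. -/
theorem add_mem_cone_secant {X : Set (PSpace ι)} {z z' : ι → ℂ} (hz : z ∈ cone X)
    (hz' : z' ∈ cone X) : z + z' ∈ cone (secantSet X 2) := by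
  intro h0
  obtain ⟨c, -, hr⟩ := rep_eq (z + z') h0
  refine mem_secantSet_of_sum' ![c • z, c • z'] (fun i => ?_) _ ?_
  · fin_cases i
    · exact smul_mem_cone hz c
    · exact smul_mem_cone hz' c
  · rw [hr, Fin.sum_univ_two, smul_add]
    rfl

theorem mem_secant_two {X : Set (PSpace ι)} {p : PSpace ι} :
    p ∈ secantSet X 2 ↔ ∃ z ∈ cone X, ∃ z' ∈ cone X, p.rep = z + z' := by
  constructor
  · intro h
    obtain ⟨z, hz, hs⟩ := exists_sum_of_mem_secantSet h
    exact ⟨z 0, hz 0, z 1, hz 1, by rw [hs, Fin.sum_univ_two]⟩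
  · rintro ⟨z, hz, z', hz', hp⟩
    have h1 := add_mem_cone_secant hz hz'
    rw [← hp] at h1
    exact rep_mem_cone.1 h1

theorem rank_ne {X : Set (PSpace ι)} (hne : X.Nonempty) (w : ι → ℂ) (hw : w ≠ 0)
    (hnot : ∀ z ∈ cone X, ∀ z' ∈ cone X, w ≠ z + z') (q : ι → Polynomial ℂ)
    (hq : ∀ ε : ℂ, ε ≠ 0 → ∃ z ∈ cone X, ∃ z' ∈ cone X, (fun i => (q i).eval ε) = z + z')
    (hq0 : w = fun i => (q i).eval 0) :
    ∃ p : PSpace ι, xRank X p ≠ xBorderRank X p := by
  refine ⟨Projectivization.mk ℂ w hw, fun heq => ?_⟩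
  have h1 : Projectivization.mk ℂ w hw ∈ secantVariety X 2 := by
    intro F d hF hv
    rw [eval_rep_iff hF, hq0]
    refine limit_zero F q fun ε hε => ?_
    obtain ⟨z, hz, z', hz', hs⟩ := hq ε hε
    rw [hs]
    have hne2 : (secantSet X 2).Nonempty := by
      obtain ⟨x, hx⟩ := hne
      exact ⟨x, secantSet_mono ⟨x, hx⟩ (by norm_num : 1 ≤ 2) (by rw [secantSet_one]; exact hx)⟩
    exact vanish_on_cone hne2 hF hv _ (add_mem_cone_secant hz hz')
  have h2 : xBorderRank X (Projectivization.mk ℂ w hw) ≤ (2 : ℕ) := (xBorderRank_le_iff hne).2 h1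
  rw [← heq, xRank_le_iff hne, mem_secant_two] at h2
  obtain ⟨z, hz, z', hz', hs⟩ := h2
  obtain ⟨c, hc, hr⟩ := rep_eq w hw
  refine hnot (c⁻¹ • z) (smul_mem_cone hz _) (c⁻¹ • z') (smul_mem_cone hz' _) ?_
  rw [← smul_add, ← hs, hr, smul_smul, inv_mul_cancel₀ hc, one_smul]

end general

variable {k : ℕ}

/-- The points of the affine cone over the rational normal scroll. -/
def scrollPt (a : Fin k → ℕ) (s t : ℂ) (c : Fin k → ℂ) : (Σ i : Fin k, Fin (a i + 1)) → ℂ :=
  fun x => c x.1 * s ^ (a x.1 - x.2.1) * t ^ x.2.1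

/-- The rational normal scroll of type `a 0, …, a (k - 1)`: the points with coordinates
`z (i, j) = c i * s ^ (a i - j) * t ^ j`. -/
def scroll (a : Fin k → ℕ) : Set (PSpace (Σ i : Fin k, Fin (a i + 1))) :=
  {p | ∃ (s t : ℂ) (c : Fin k → ℂ), p.rep = scrollPt a s t c}

theorem mem_cone_scroll {a : Fin k → ℕ} {w : (Σ i : Fin k, Fin (a i + 1)) → ℂ} :
    w ∈ cone (scroll a) ↔ ∃ (s t : ℂ) (c : Fin k → ℂ), w = scrollPt a s t c := by
  refine mem_cone_setOf (P := fun w => ∃ (s t : ℂ) (c : Fin k → ℂ), w = scrollPt a s t c) ?_ ?_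
  · refine ⟨0, 0, 0, ?_⟩
    funext x
    simp [scrollPt]
  · rintro c w ⟨s, t, c', rfl⟩
    refine ⟨s, t, c • c', ?_⟩
    funext x
    simp only [scrollPt, Pi.smul_apply, smul_eq_mul]
    ring

theorem scroll_closed (a : Fin k → ℕ) : IsZariskiClosed (scroll a) := by
  refine ⟨{F | ∃ (x y : Σ i : Fin k, Fin (a i)), F =
    X (⟨x.1, x.2.castSucc⟩ : Σ i : Fin k, Fin (a i + 1)) * X ⟨y.1, y.2.succ⟩ -
    X ⟨x.1, x.2.succ⟩ * X ⟨y.1, y.2.castSucc⟩}, ?_, fun p => ?_⟩
  · rintro F ⟨x, y, rfl⟩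
    exact ⟨2, ((isHomogeneous_X ℂ _).mul (isHomogeneous_X ℂ _)).sub
      ((isHomogeneous_X ℂ _).mul (isHomogeneous_X ℂ _))⟩
  · constructor
    · rintro ⟨s, t, c, hp⟩ F ⟨x, y, rfl⟩
      obtain ⟨i, j, hj⟩ := x
      obtain ⟨i', j', hj'⟩ := y
      simp only [map_sub, map_mul, eval_X, hp, scrollPt, Fin.val_castSucc, Fin.val_succ,
        Fin.castSucc_mk, Fin.succ_mk]
      obtain ⟨m, hm⟩ : ∃ m, a i - j = m + 1 := ⟨a i - j - 1, by omega⟩
      obtain ⟨m', hm'⟩ : ∃ m', a i' - j' = m' + 1 := ⟨a i' - j' - 1, by omega⟩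
      have h1 : a i - (j + 1) = m := by omega
      have h2 : a i' - (j' + 1) = m' := by omega
      rw [hm, hm', h1, h2]
      ring
    · intro h
      have h1 : ∀ x y : Σ i : Fin k, Fin (a i), p.rep ⟨x.1, x.2.castSucc⟩ * p.rep ⟨y.1, y.2.succ⟩ =
          p.rep ⟨x.1, x.2.succ⟩ * p.rep ⟨y.1, y.2.castSucc⟩ := by
        intro x y
        have h2 := h _ ⟨x, y, rfl⟩
        simp only [map_sub, map_mul, eval_X] at h2
        exact sub_eq_zero.1 h2
      by_cases h0 : ∀ x : Σ i : Fin k, Fin (a i), p.rep ⟨x.1, x.2.castSucc⟩ = 0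
      · refine ⟨0, 1, fun i => p.rep ⟨i, Fin.last _⟩, ?_⟩
        funext ⟨i, j⟩
        simp only [scrollPt, one_pow, mul_one]
        refine Fin.lastCases ?_ (fun j => ?_) j
        · simp
        · have h2 := h0 ⟨i, j⟩
          simp only at h2
          rw [h2, Fin.val_castSucc, zero_pow (by have := j.2; omega), mul_zero]
      · push Not at h0
        obtain ⟨x0, hx0⟩ := h0
        refine ⟨1, p.rep ⟨x0.1, x0.2.succ⟩ / p.rep ⟨x0.1, x0.2.castSucc⟩,
          fun i => p.rep ⟨i, 0⟩, ?_⟩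
        funext ⟨i, j⟩
        simp only [scrollPt, one_pow, mul_one]
        induction j using Fin.induction with
        | zero => simp
        | succ j ih =>
          have h2 := h1 x0 ⟨i, j⟩
          simp only at h2
          rw [Fin.val_succ, pow_succ, ← mul_assoc]
          rw [Fin.val_castSucc] at ih
          rw [← ih]
          field_simp
          linear_combination h2

theorem scroll_nonempty (a : Fin k → ℕ) (hk : 0 < k) : (scroll a).Nonempty := by
  have h0 : scrollPt a 1 0 (fun _ => 1) ≠ 0 := by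
    intro h
    have h1 := congrFun h ⟨⟨0, hk⟩, 0⟩
    simp [scrollPt] at h1
  refine ⟨Projectivization.mk ℂ _ h0, ?_⟩
  rw [← mem_cone_iff h0, mem_cone_scroll]
  exact ⟨1, 0, _, rfl⟩

theorem scroll_variety (a : Fin k → ℕ) (hk : 0 < k) : IsProjectiveVariety (scroll a) := by
  refine ⟨scroll_closed a, irred_of_param (scroll_nonempty a hk) (σ := Fin 2 ⊕ Fin k)
    (fun x => X (Sum.inr x.1) * X (Sum.inl 0) ^ (a x.1 - x.2.1) * X (Sum.inl 1) ^ x.2.1) ?_ ?_⟩
  · intro x
    rw [mem_cone_scroll]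
    refine ⟨x (Sum.inl 0), x (Sum.inl 1), fun i => x (Sum.inr i), ?_⟩
    funext y
    simp only [scrollPt, map_mul, map_pow, eval_X]
  · rintro F d - hvan p ⟨s, t, c, hp⟩
    have h1 := hvan (Sum.elim ![s, t] c)
    rw [hp]
    have h2 : (fun i => eval (Sum.elim ![s, t] c) (X (Sum.inr i.1) * X (Sum.inl 0) ^ (a i.1 - i.2.1) *
        X (Sum.inl 1) ^ i.2.1)) = scrollPt a s t c := by
      funext y
      simp [scrollPt]
    rw [h2] at h1
    exact h1

/-- Components of degree at most one. -/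
theorem sc_small (n : ℕ) (hn : n ≤ 1) (s t s' t' : ℂ) (h : s * t' - s' * t ≠ 0)
    (v : Fin (n + 1) → ℂ) : ∃ c c' : ℂ, ∀ j : Fin (n + 1),
      v j = c * s ^ (n - j.1) * t ^ j.1 + c' * s' ^ (n - j.1) * t' ^ j.1 := by
  rcases Nat.le_one_iff_eq_zero_or_eq_one.1 hn with rfl | rfl
  · refine ⟨v 0, 0, fun j => ?_⟩
    fin_cases j
    simp
  · refine ⟨(v 0 * t' - v 1 * s') / (s * t' - s' * t), (v 1 * s - v 0 * t) / (s * t' - s' * t),
      fun j => ?_⟩
    fin_cases j
    · simp only [Fin.zero_eta, Fin.isValue, Fin.coe_ofNat_eq_mod, Nat.zero_mod, Nat.sub_zero, pow_one,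
        pow_zero, mul_one]
      rw [div_mul_eq_mul_div, div_mul_eq_mul_div, ← add_div, eq_div_iff h]
      ring
    · simp only [Fin.mk_one, Fin.isValue, Fin.coe_ofNat_eq_mod, Nat.mod_succ, Nat.sub_self, pow_zero,
        pow_one, mul_one]
      rw [div_mul_eq_mul_div, div_mul_eq_mul_div, ← add_div, eq_div_iff h]
      ring

theorem sc_two (n : ℕ) (hn : n = 2) (v : Fin (n + 1) → ℂ) : ∃ s t s' t' : ℂ,
    s * t' - s' * t ≠ 0 ∧ ∃ c c' : ℂ, ∀ j : Fin (n + 1),
      v j = c * s ^ (n - j.1) * t ^ j.1 + c' * s' ^ (n - j.1) * t' ^ j.1 := by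
  subst hn
  by_cases h0 : v 0 = 0
  · by_cases h2 : v 2 = 0
    · refine ⟨1, 1, 1, -1, by norm_num, v 1 / 2, -(v 1 / 2), fun j => ?_⟩
      fin_cases j
      · simp [h0]
      · simp
      · simp [h2]
    · refine ⟨v 1 / v 2, 1, 1, 0, by norm_num, v 2, -(v 1 ^ 2 / v 2), fun j => ?_⟩
      fin_cases j
      · simp [h0]
        field_simp
        ring
      · simp
        field_simp
      · simp
  · refine ⟨1, v 1 / v 0, 0, 1, by norm_num, v 0, v 2 - v 1 ^ 2 / v 0, fun j => ?_⟩
    fin_cases j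
    · simp
    · simp
      field_simp
    · simp
      field_simp
      ring

theorem scroll_pos (a : Fin k → ℕ) (hk : 0 < k) (h2 : ∀ i, a i ≤ 2)
    (h1 : ∀ i j, a i = 2 → a j = 2 → i = j) (p : PSpace (Σ i : Fin k, Fin (a i + 1))) :
    xRank (scroll a) p = xBorderRank (scroll a) p := by
  refine rank_eq_of_two (scroll_closed a) (scroll_nonempty a hk) (fun p => ?_) p
  -- the two directions
  have key : ∃ s t s' t' : ℂ, s * t' - s' * t ≠ 0 ∧ ∀ i, ∃ c c' : ℂ, ∀ j : Fin (a i + 1),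
      p.rep ⟨i, j⟩ = c * s ^ (a i - j.1) * t ^ j.1 + c' * s' ^ (a i - j.1) * t' ^ j.1 := by
    by_cases hex : ∃ i, a i = 2
    · obtain ⟨i0, hi0⟩ := hex
      obtain ⟨s, t, s', t', hd, hc⟩ := sc_two (a i0) hi0 (fun j => p.rep ⟨i0, j⟩)
      refine ⟨s, t, s', t', hd, fun i => ?_⟩
      by_cases hi : i = i0
      · subst hi
        exact hc
      · have : a i ≤ 1 := by
          have h3 := h2 i
          have h4 : a i ≠ 2 := fun h => hi (h1 i i0 h hi0)
          omega
        exact sc_small (a i) this s t s' t' hd fun j => p.rep ⟨i, j⟩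
    · push Not at hex
      refine ⟨1, 0, 0, 1, by norm_num, fun i => ?_⟩
      have : a i ≤ 1 := by
        have h3 := h2 i
        have h4 := hex i
        omega
      exact sc_small (a i) this 1 0 0 1 (by norm_num) fun j => p.rep ⟨i, j⟩
  obtain ⟨s, t, s', t', -, hc⟩ := key
  choose c c' hcc using hc
  rw [mem_secant_two]
  refine ⟨scrollPt a s t c, mem_cone_scroll.2 ⟨s, t, c, rfl⟩, scrollPt a s' t' c',
    mem_cone_scroll.2 ⟨s', t', c', rfl⟩, ?_⟩
  funext ⟨i, j⟩
  rw [Pi.add_apply]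
  exact hcc i j

/-- The recursion of two points. -/
theorem sc_rec (s t s' t' c c' : ℂ) (n j : ℕ) (hj : j + 2 ≤ n) :
    t * t' * (c * s ^ (n - j) * t ^ j + c' * s' ^ (n - j) * t' ^ j) -
      (s * t' + s' * t) * (c * s ^ (n - (j + 1)) * t ^ (j + 1) +
        c' * s' ^ (n - (j + 1)) * t' ^ (j + 1)) +
      s * s' * (c * s ^ (n - (j + 2)) * t ^ (j + 2) + c' * s' ^ (n - (j + 2)) * t' ^ (j + 2)) = 0 := by
  obtain ⟨m, rfl⟩ : ∃ m, n = m + j + 2 := ⟨n - j - 2, by omega⟩
  have e1 : m + j + 2 - j = m + 2 := by omega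
  have e2 : m + j + 2 - (j + 1) = m + 1 := by omega
  have e3 : m + j + 2 - (j + 2) = m := by omega
  rw [e1, e2, e3]
  ring

theorem scroll_neg_three (a : Fin k → ℕ) (hk : 0 < k) (i : Fin k) (hi : 3 ≤ a i) :
    ∃ p, xRank (scroll a) p ≠ xBorderRank (scroll a) p := by
  classical
  let x1 : Σ i : Fin k, Fin (a i + 1) := ⟨i, ⟨1, by omega⟩⟩
  have hw1 : (Pi.single x1 1 : (Σ i : Fin k, Fin (a i + 1)) → ℂ) ≠ 0 := by
    intro h
    have := congrFun h x1
    rw [Pi.single_eq_same] at this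
    exact one_ne_zero this
  refine rank_ne (scroll_nonempty a hk) (Pi.single x1 1) hw1 ?_
    (fun x => if x.1 = i then (if x.2.1 = 0 then 0 else Polynomial.X ^ (x.2.1 - 1)) else 0) ?_ ?_
  · intro z hz z' hz' hs
    obtain ⟨s, t, c, rfl⟩ := mem_cone_scroll.1 hz
    obtain ⟨s', t', c', rfl⟩ := mem_cone_scroll.1 hz'
    have hv : ∀ (j : ℕ) (hj : j < a i + 1), c i * s ^ (a i - j) * t ^ j +
        c' i * s' ^ (a i - j) * t' ^ j = if j = 1 then 1 else 0 := by
      intro j hj
      have h1 := congrFun hs ⟨i, ⟨j, hj⟩⟩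
      rw [Pi.add_apply] at h1
      change _ = c i * s ^ (a i - j) * t ^ j + c' i * s' ^ (a i - j) * t' ^ j at h1
      rw [← h1]
      by_cases hj1 : j = 1
      · subst hj1
        rw [if_pos rfl]
        exact Pi.single_eq_same (M := fun _ => ℂ) x1 1
      · rw [if_neg hj1, Pi.single_eq_of_ne]
        intro h2
        apply hj1
        have h3 := (Sigma.mk.inj_iff.1 h2).2
        have h4 := eq_of_heq h3
        exact congrArg Fin.val h4
    have r0 := sc_rec s t s' t' (c i) (c' i) (a i) 0 (by omega)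
    have r1 := sc_rec s t s' t' (c i) (c' i) (a i) 1 (by omega)
    rw [hv 0 (by omega), hv 1 (by omega), hv 2 (by omega)] at r0
    rw [hv 1 (by omega), hv 2 (by omega), hv 3 (by omega)] at r1
    simp at r0 r1
    have v0 := hv 0 (by omega)
    have v1 := hv 1 (by omega)
    simp at v0 v1
    rcases r1 with ht | ht
    · subst ht
      have hne : a i - 1 ≠ 0 := by omega
      have h5 : c' i * s' ^ (a i - 1) * t' = 1 := by simpa using v1
      have h6 : t' ≠ 0 := by rintro rfl; simp at h5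
      have h7 : s' ≠ 0 := by rintro rfl; simp [hne] at h5
      have h8 : c' i ≠ 0 := by intro h; simp [h] at h5
      have h9 : s = 0 := by
        rcases mul_eq_zero.1 (by simpa using r0 : s * t' = 0) with h | h
        · exact h
        · exact absurd h h6
      subst h9
      have h10 : c' i * s' ^ (a i) = 0 := by
        have : a i ≠ 0 := by omega
        simpa [this] using v0
      exact (mul_ne_zero h8 (pow_ne_zero _ h7)) h10
    · subst ht
      have hne : a i - 1 ≠ 0 := by omega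
      have h5 : c i * s ^ (a i - 1) * t = 1 := by simpa using v1
      have h6 : t ≠ 0 := by rintro rfl; simp at h5
      have h7 : s ≠ 0 := by rintro rfl; simp [hne] at h5
      have h8 : c i ≠ 0 := by intro h; simp [h] at h5
      have h9 : s' = 0 := by
        rcases mul_eq_zero.1 (by simpa using r0 : s' * t = 0) with h | h
        · exact h
        · exact absurd h h6
      subst h9
      have h10 : c i * s ^ (a i) = 0 := by
        have : a i ≠ 0 := by omega
        simpa [this] using v0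
      exact (mul_ne_zero h8 (pow_ne_zero _ h7)) h10
  · intro ε hε
    refine ⟨scrollPt a 1 ε (Pi.single i ε⁻¹), mem_cone_scroll.2 ⟨_, _, _, rfl⟩,
      scrollPt a 1 0 (Pi.single i (-ε⁻¹)), mem_cone_scroll.2 ⟨_, _, _, rfl⟩, ?_⟩
    funext ⟨i', j⟩
    rw [Pi.add_apply]
    simp only [scrollPt, one_pow, mul_one]
    by_cases hi' : i' = i
    · subst hi'
      rw [if_pos rfl, Pi.single_eq_same, Pi.single_eq_same]
      by_cases hj : j.1 = 0
      · rw [if_pos hj, hj]
        simp
      · rw [if_neg hj]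
        obtain ⟨m, hm⟩ : ∃ m, j.1 = m + 1 := ⟨j.1 - 1, by omega⟩
        rw [hm]
        simp [pow_succ]
        field_simp
    · rw [if_neg hi', Pi.single_eq_of_ne hi', Pi.single_eq_of_ne hi']
      simp
  · funext ⟨i', j⟩
    by_cases hi' : i' = i
    · subst hi'
      dsimp only
      rw [if_pos rfl]
      by_cases hj : j.1 = 0
      · rw [if_pos hj, Pi.single_eq_of_ne]
        · simp
        · intro h2
          have h4 := eq_of_heq (Sigma.mk.inj_iff.1 h2).2
          rw [h4] at hj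
          exact one_ne_zero hj
      · rw [if_neg hj]
        by_cases hj1 : j.1 = 1
        · have hj' : j = ⟨1, by omega⟩ := Fin.ext hj1
          rw [hj', show (⟨i', ⟨1, by omega⟩⟩ : Σ i : Fin k, Fin (a i + 1)) = x1 from rfl,
            Pi.single_eq_same]
          simp
        · rw [Pi.single_eq_of_ne]
          · have h5 : j.1 - 1 ≠ 0 := by omega
            simp [h5]
          · intro h2
            have h4 := eq_of_heq (Sigma.mk.inj_iff.1 h2).2
            rw [h4] at hj1
            exact hj1 rfl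
    · dsimp only
      rw [if_neg hi', Pi.single_eq_of_ne]
      · simp
      · intro h2
        exact hi' (Sigma.mk.inj_iff.1 h2).1

theorem scroll_neg_two (a : Fin k → ℕ) (hk : 0 < k) (i i0 : Fin k) (hne : i ≠ i0) (hi : a i = 2)
    (hi0 : a i0 = 2) : ∃ p, xRank (scroll a) p ≠ xBorderRank (scroll a) p := by
  classical
  let x1 : Σ i : Fin k, Fin (a i + 1) := ⟨i, ⟨1, by omega⟩⟩
  let x0 : Σ i : Fin k, Fin (a i + 1) := ⟨i0, ⟨0, by omega⟩⟩
  have hx : x1 ≠ x0 := fun h => hne (Sigma.mk.inj_iff.1 h).1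
  let w : (Σ i : Fin k, Fin (a i + 1)) → ℂ := Pi.single x1 1 + Pi.single x0 1
  have hwi : ∀ (j : ℕ) (hj : j < a i + 1), w ⟨i, ⟨j, hj⟩⟩ = if j = 1 then 1 else 0 := by
    intro j hj
    show (Pi.single x1 1 : (Σ i : Fin k, Fin (a i + 1)) → ℂ) ⟨i, ⟨j, hj⟩⟩ +
      (Pi.single x0 1 : (Σ i : Fin k, Fin (a i + 1)) → ℂ) ⟨i, ⟨j, hj⟩⟩ = _
    rw [Pi.single_eq_of_ne (i := x0) (fun h => hne (Sigma.mk.inj_iff.1 h).1), add_zero]
    by_cases hj1 : j = 1
    · subst hj1
      rw [if_pos rfl]
      exact Pi.single_eq_same (M := fun _ => ℂ) x1 1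
    · rw [if_neg hj1, Pi.single_eq_of_ne]
      intro h2
      exact hj1 (congrArg Fin.val (eq_of_heq (Sigma.mk.inj_iff.1 h2).2))
  have hwi0 : ∀ (j : ℕ) (hj : j < a i0 + 1), w ⟨i0, ⟨j, hj⟩⟩ = if j = 0 then 1 else 0 := by
    intro j hj
    show (Pi.single x1 1 : (Σ i : Fin k, Fin (a i + 1)) → ℂ) ⟨i0, ⟨j, hj⟩⟩ +
      (Pi.single x0 1 : (Σ i : Fin k, Fin (a i + 1)) → ℂ) ⟨i0, ⟨j, hj⟩⟩ = _
    rw [Pi.single_eq_of_ne (i := x1) (fun h => hne (Sigma.mk.inj_iff.1 h).1.symm), zero_add]
    by_cases hj1 : j = 0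
    · subst hj1
      rw [if_pos rfl]
      exact Pi.single_eq_same (M := fun _ => ℂ) x0 1
    · rw [if_neg hj1, Pi.single_eq_of_ne]
      intro h2
      exact hj1 (congrArg Fin.val (eq_of_heq (Sigma.mk.inj_iff.1 h2).2))
  have hwo : ∀ x : Σ i : Fin k, Fin (a i + 1), x.1 ≠ i → x.1 ≠ i0 → w x = 0 := by
    intro x h1 h2
    show (Pi.single x1 1 : (Σ i : Fin k, Fin (a i + 1)) → ℂ) x +
      (Pi.single x0 1 : (Σ i : Fin k, Fin (a i + 1)) → ℂ) x = _
    rw [Pi.single_eq_of_ne (fun h => h1 (by rw [h])), Pi.single_eq_of_ne (fun h => h2 (by rw [h])),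
      add_zero]
  have hw1 : w ≠ 0 := by
    intro h
    have h1 := congrFun h ⟨i, ⟨1, by omega⟩⟩
    rw [hwi, if_pos rfl] at h1
    exact one_ne_zero h1
  refine rank_ne (scroll_nonempty a hk) w hw1 ?_
    (fun x => if x.1 = i then (if x.2.1 = 0 then 0 else Polynomial.X ^ (x.2.1 - 1)) else
      if x.1 = i0 then (if x.2.1 = 0 then 1 else 0) else 0) ?_ ?_
  · intro z hz z' hz' hs
    obtain ⟨s, t, c, rfl⟩ := mem_cone_scroll.1 hz
    obtain ⟨s', t', c', rfl⟩ := mem_cone_scroll.1 hz'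
    have hv : ∀ (j : ℕ) (hj : j < a i + 1), c i * s ^ (a i - j) * t ^ j +
        c' i * s' ^ (a i - j) * t' ^ j = if j = 1 then 1 else 0 := by
      intro j hj
      rw [← hwi j hj, hs]
      rfl
    have hv0 : ∀ (j : ℕ) (hj : j < a i0 + 1), c i0 * s ^ (a i0 - j) * t ^ j +
        c' i0 * s' ^ (a i0 - j) * t' ^ j = if j = 0 then 1 else 0 := by
      intro j hj
      rw [← hwi0 j hj, hs]
      rfl
    have r0 := sc_rec s t s' t' (c i) (c' i) (a i) 0 (by omega)
    have r1 := sc_rec s t s' t' (c i0) (c' i0) (a i0) 0 (by omega)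
    rw [hv 0 (by omega), hv 1 (by omega), hv 2 (by omega)] at r0
    rw [hv0 0 (by omega), hv0 1 (by omega), hv0 2 (by omega)] at r1
    have v0 := hv 0 (by omega)
    have v1 := hv 1 (by omega)
    have e1 : a i - 1 = 1 := by omega
    rw [hi] at v0
    rw [e1] at v1
    simp at r0 r1 v0 v1
    rcases r1 with ht | ht
    · subst ht
      have h5 : c' i * s' * t' = 1 := by simpa using v1
      have h6 : t' ≠ 0 := by rintro rfl; simp at h5
      have h7 : s' ≠ 0 := by rintro rfl; simp at h5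
      have h8 : c' i ≠ 0 := by intro h; simp [h] at h5
      have h9 : s = 0 := by
        rcases mul_eq_zero.1 (by simpa using r0 : s * t' = 0) with h | h
        · exact h
        · exact absurd h h6
      subst h9
      have h10 : c' i * s' ^ 2 = 0 := by simpa using v0
      exact (mul_ne_zero h8 (pow_ne_zero _ h7)) h10
    · subst ht
      have h5 : c i * s * t = 1 := by simpa using v1
      have h6 : t ≠ 0 := by rintro rfl; simp at h5
      have h7 : s ≠ 0 := by rintro rfl; simp at h5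
      have h8 : c i ≠ 0 := by intro h; simp [h] at h5
      have h9 : s' = 0 := by
        rcases mul_eq_zero.1 (by simpa using r0 : s' * t = 0) with h | h
        · exact h
        · exact absurd h h6
      subst h9
      have h10 : c i * s ^ 2 = 0 := by simpa using v0
      exact (mul_ne_zero h8 (pow_ne_zero _ h7)) h10
  · intro ε hε
    refine ⟨scrollPt a 1 ε (Pi.single i ε⁻¹), mem_cone_scroll.2 ⟨_, _, _, rfl⟩,
      scrollPt a 1 0 (Pi.single i (-ε⁻¹) + Pi.single i0 1), mem_cone_scroll.2 ⟨_, _, _, rfl⟩, ?_⟩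
    funext ⟨i', j⟩
    rw [Pi.add_apply]
    simp only [scrollPt, one_pow, mul_one, Pi.add_apply]
    by_cases hi' : i' = i
    · subst hi'
      rw [if_pos rfl, Pi.single_eq_same, Pi.single_eq_same, Pi.single_eq_of_ne hne, add_zero]
      by_cases hj : j.1 = 0
      · rw [if_pos hj, hj]
        simp
      · rw [if_neg hj]
        obtain ⟨m, hm⟩ : ∃ m, j.1 = m + 1 := ⟨j.1 - 1, by omega⟩
        rw [hm]
        simp [pow_succ]
        field_simp
    · rw [if_neg hi', Pi.single_eq_of_ne hi', Pi.single_eq_of_ne hi', zero_mul, zero_add, zero_add]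
      by_cases hi'' : i' = i0
      · subst hi''
        rw [if_pos rfl, Pi.single_eq_same]
        by_cases hj : j.1 = 0
        · rw [if_pos hj, hj]
          simp
        · rw [if_neg hj]
          simp [hj]
      · rw [if_neg hi'', Pi.single_eq_of_ne hi'']
        simp
  · funext ⟨i', j⟩
    by_cases hi' : i' = i
    · subst hi'
      dsimp only
      rw [if_pos rfl, hwi j.1 j.2]
      by_cases hj : j.1 = 0
      · rw [if_pos hj, if_neg (by omega)]
        simp
      · rw [if_neg hj]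
        by_cases hj1 : j.1 = 1
        · rw [if_pos hj1, hj1]
          simp
        · rw [if_neg hj1]
          have h5 : j.1 - 1 ≠ 0 := by omega
          simp [h5]
    · dsimp only
      rw [if_neg hi']
      by_cases hi'' : i' = i0
      · subst hi''
        rw [if_pos rfl, hwi0 j.1 j.2]
        by_cases hj : j.1 = 0
        · rw [if_pos hj, if_pos hj]
          simp
        · rw [if_neg hj, if_neg hj]
          simp
      · rw [if_neg hi'', hwo _ hi' hi'']
        simp

/-- The rational normal scrolls (and the cones over them) with the property. -/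
theorem scroll_iff (a : Fin k → ℕ) (hk : 0 < k) :
    (∀ p, xRank (scroll a) p = xBorderRank (scroll a) p) ↔
      (∀ i, a i ≤ 2) ∧ ∀ i j, a i = 2 → a j = 2 → i = j := by
  constructor
  · intro h
    by_contra hno
    rw [not_and_or] at hno
    rcases hno with h1 | h1
    · push Not at h1
      obtain ⟨i, hi⟩ := h1
      obtain ⟨p, hp⟩ := scroll_neg_three a hk i hi
      exact hp (h p)
    · push Not at h1
      obtain ⟨i, j, hi, hj, hij⟩ := h1
      obtain ⟨p, hp⟩ := scroll_neg_two a hk i j hij hi hj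
      exact hp (h p)
  · rintro ⟨h2, h1⟩ p
    exact scroll_pos a hk h2 h1 p

end Pool.Agent.Lib.MP_e005b4_ag
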