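import Pool.Agent.Lib.MP_e005b4_ag.Sec.Basic

/-!
# Hyperplane sections of Segre varieties: rank equals border rank
-/

set_option autoImplicit false

namespace Pool.Agent.Lib.MP_e005b4_ag

open MvPolynomial Matrix
open scoped LinearAlgebra.Projectivization

theorem prop_vec {m : ℕ} (a b : Fin m → ℂ) (h : ∀ β : Fin m → ℂ, β ⬝ᵥ b = 0 → β ⬝ᵥ a = 0) :
    ∃ c : ℂ, a = c • b := by
  by_cases hb : b = 0
  · refine ⟨0, ?_⟩
    funext i
    have h1 := h (Pi.single i 1) (by rw [hb]; simp)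
    rw [single_one_dotProduct] at h1
    rw [h1, zero_smul, Pi.zero_apply]
  · obtain ⟨i0, hi0⟩ := Function.ne_iff.mp hb
    have hi0' : b i0 ≠ 0 := hi0
    refine ⟨a i0 / b i0, ?_⟩
    funext i
    have h1 := h (b i0 • Pi.single i 1 - b i • Pi.single i0 1) (by
      rw [sub_dotProduct, smul_dotProduct, smul_dotProduct, single_one_dotProduct, single_one_dotProduct,
        smul_eq_mul, smul_eq_mul]
      ring)
    rw [sub_dotProduct, smul_dotProduct, smul_dotProduct, single_one_dotProduct, single_one_dotProduct,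
        smul_eq_mul, smul_eq_mul] at h1
    rw [Pi.smul_apply, smul_eq_mul]
    field_simp
    linear_combination h1

theorem prop_map {E F : Type*} [AddCommGroup E] [Module ℂ E] [AddCommGroup F] [Module ℂ F]
    (M N : E →ₗ[ℂ] F) (h : ∀ y, ∃ c : ℂ, M y = c • N y) : ∃ c : ℂ, M = c • N := by
  by_cases hN : ∀ y, N y = 0
  · refine ⟨0, ?_⟩
    ext y
    obtain ⟨c, hc⟩ := h y
    rw [hc, hN y, smul_zero, zero_smul, LinearMap.zero_apply]
  · push Not at hN
    obtain ⟨y1, hy1⟩ := hN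
    obtain ⟨c, hc⟩ := h y1
    refine ⟨c, ?_⟩
    ext y2
    rw [LinearMap.smul_apply]
    by_cases hdep : ∃ a : ℂ, N y2 = a • N y1
    · obtain ⟨a, ha⟩ := hdep
      obtain ⟨c', hc'⟩ := h (y2 - a • y1)
      rw [map_sub, map_sub, map_smul, map_smul, ha, sub_self, smul_zero, sub_eq_zero] at hc'
      rw [hc', hc, ha, smul_smul, smul_smul, mul_comm]
    · obtain ⟨c2, hc2⟩ := h y2
      obtain ⟨c3, hc3⟩ := h (y1 + y2)
      rw [map_add, map_add, hc, hc2, smul_add] at hc3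
      have h1 : (c2 - c3) • N y2 = (c3 - c) • N y1 := by
        rw [sub_smul, sub_smul, sub_eq_sub_iff_add_eq_add, add_comm, hc3]
      have h2 : c2 = c3 := by
        by_contra hne
        apply hdep
        refine ⟨(c2 - c3)⁻¹ * (c3 - c), ?_⟩
        rw [mul_smul, ← h1, smul_smul, inv_mul_cancel₀ (sub_ne_zero.2 hne), one_smul]
      rw [h2, sub_self, zero_smul] at h1
      have h3 : c3 - c = 0 := by
        rcases smul_eq_zero.1 h1.symm with h3 | h3
        · exact h3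
        · exact absurd h3 hy1
      rw [hc2, h2, sub_eq_zero.1 h3]

/-- An idempotent matrix of trace zero is zero. -/
theorem idem_zero {m : ℕ} (P : Matrix (Fin m) (Fin m) ℂ) (hP : P * P = P) (ht : P.trace = 0) : P = 0 := by
  have h1 : IsIdempotentElem (Matrix.toLin' P) := by
    show Matrix.toLin' P * Matrix.toLin' P = Matrix.toLin' P
    rw [Module.End.mul_eq_comp, ← Matrix.toLin'_mul, hP]
  have h2 : LinearMap.trace ℂ (Fin m → ℂ) (Matrix.toLin' P) = 0 := by
    rw [Matrix.trace_toLin'_eq, ht]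
  have h3 := LinearMap.IsIdempotentElem.eq_zero_of_trace_eq_zero h1 h2
  exact (Matrix.toLin').map_eq_zero_iff.1 h3

theorem wed_exists {m n : ℕ} (M : Matrix (Fin m) (Fin n) ℂ) (B' : Matrix (Fin n) (Fin m) ℂ)
    (hM : M ≠ 0) (htr : (M * B').trace = 0) : ∃ (β : Fin m → ℂ) (y : Fin n → ℂ),
      β ⬝ᵥ (M *ᵥ y) = 1 ∧ β ⬝ᵥ ((M * B' * M) *ᵥ y) = 0 := by
  by_contra hno
  push Not at hno
  have h1 : ∀ (y : Fin n → ℂ) (β : Fin m → ℂ), β ⬝ᵥ ((M * B' * M) *ᵥ y) = 0 → β ⬝ᵥ (M *ᵥ y) = 0 := by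
    intro y β h
    by_contra hne
    apply hno ((β ⬝ᵥ (M *ᵥ y))⁻¹ • β) y
    · rw [smul_dotProduct, smul_eq_mul, inv_mul_cancel₀ hne]
    · rw [smul_dotProduct, h, smul_zero]
  have h2 : ∀ y, ∃ c : ℂ, M.mulVecLin y = c • (M * B' * M).mulVecLin y := by
    intro y
    exact prop_vec _ _ (h1 y)
  obtain ⟨c, hc⟩ := prop_map _ _ h2
  have h3 : M = c • (M * B' * M) := by
    apply Matrix.toLin'.injective
    refine LinearMap.ext fun y => ?_
    have h4 := LinearMap.congr_fun hc y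
    rw [Matrix.toLin'_apply, Matrix.toLin'_apply, Matrix.smul_mulVec]
    exact h4
  have h4 : (c • (M * B')) * (c • (M * B')) = c • (M * B') := by
    rw [Matrix.smul_mul, Matrix.mul_smul, ← Matrix.mul_assoc, smul_smul, ← smul_smul, ← Matrix.smul_mul,
      ← h3]
  have h5 : c • (M * B') = 0 := idem_zero _ h4 (by rw [Matrix.trace_smul, htr, smul_zero])
  apply hM
  rw [h3, ← Matrix.smul_mul, h5, Matrix.zero_mul]

theorem wed_rank {m n : ℕ} (M : Matrix (Fin m) (Fin n) ℂ) (β : Fin m → ℂ) (y : Fin n → ℂ)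
    (h : β ⬝ᵥ (M *ᵥ y) = 1) : (M - vecMulVec (M *ᵥ y) (β ᵥ* M)).rank < M.rank := by
  have hker : LinearMap.ker M.mulVecLin < LinearMap.ker (M - vecMulVec (M *ᵥ y) (β ᵥ* M)).mulVecLin := by
    have hval : ∀ w, (M - vecMulVec (M *ᵥ y) (β ᵥ* M)) *ᵥ w = M *ᵥ w - (β ⬝ᵥ (M *ᵥ w)) • (M *ᵥ y) := by
      intro w
      rw [Matrix.sub_mulVec, Matrix.vecMulVec_mulVec, ← Matrix.dotProduct_mulVec, op_smul_eq_smul]
    rw [SetLike.lt_iff_le_and_exists]
    refine ⟨fun w hw => ?_, y, ?_, fun hy => ?_⟩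
    · rw [LinearMap.mem_ker, Matrix.mulVecLin_apply] at hw ⊢
      rw [hval, hw, dotProduct_zero, zero_smul, sub_zero]
    · rw [LinearMap.mem_ker, Matrix.mulVecLin_apply, hval, h, one_smul, sub_self]
    · rw [LinearMap.mem_ker, Matrix.mulVecLin_apply] at hy
      rw [hy, dotProduct_zero] at h
      exact zero_ne_one h
  have h1 := Submodule.finrank_lt_finrank_of_lt hker
  have h2 := M.mulVecLin.finrank_range_add_finrank_ker
  have h3 := (M - vecMulVec (M *ᵥ y) (β ᵥ* M)).mulVecLin.finrank_range_add_finrank_ker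
  unfold Matrix.rank
  omega

theorem trace_outer {m n : ℕ} (u : Fin m → ℂ) (v : Fin n → ℂ) (B' : Matrix (Fin n) (Fin m) ℂ) :
    (vecMulVec u v * B').trace = v ⬝ᵥ (B' *ᵥ u) := by
  rw [Matrix.trace, Matrix.dotProduct_mulVec, dotProduct_comm]
  refine Finset.sum_congr rfl fun i _ => ?_
  rw [Matrix.diag_apply, Matrix.mul_apply]
  show ∑ j, u i * v j * B' j i = u i * ∑ j, v j * B' j i
  rw [Finset.mul_sum]
  exact Finset.sum_congr rfl fun j _ => by ring

theorem segre_decomp {m n : ℕ} (B' : Matrix (Fin n) (Fin m) ℂ) (r : ℕ) :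
    ∀ M : Matrix (Fin m) (Fin n) ℂ, M.rank ≤ r → (M * B').trace = 0 →
      ∃ (u : Fin r → Fin m → ℂ) (v : Fin r → Fin n → ℂ), (∀ k, v k ⬝ᵥ (B' *ᵥ u k) = 0) ∧
        M = ∑ k, vecMulVec (u k) (v k) := by
  induction r with
  | zero =>
    intro M hM _
    refine ⟨fun _ => 0, fun _ => 0, fun k => k.elim0, ?_⟩
    rw [Finset.univ_eq_empty, Finset.sum_empty]
    have h1 : Module.finrank ℂ (LinearMap.range M.mulVecLin) = 0 := Nat.le_zero.1 hM
    have h2 : LinearMap.range M.mulVecLin = ⊥ := Submodule.finrank_eq_zero.1 h1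
    have h3 : M.mulVecLin = 0 := LinearMap.range_eq_bot.1 h2
    exact Matrix.toLin'.map_eq_zero_iff.1 h3
  | succ r ih =>
    intro M hM htr
    by_cases h0 : M = 0
    · refine ⟨fun _ => 0, fun _ => 0, fun k => by simp, ?_⟩
      rw [h0]
      simp
    · obtain ⟨β, y, h1, h2⟩ := wed_exists M B' h0 htr
      have hrk := wed_rank M β y h1
      have hB : (β ᵥ* M) ⬝ᵥ (B' *ᵥ (M *ᵥ y)) = 0 := by
        rw [← Matrix.dotProduct_mulVec, Matrix.mulVec_mulVec, Matrix.mulVec_mulVec]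
        exact h2
      obtain ⟨u, v, huv, hsum⟩ := ih (M - vecMulVec (M *ᵥ y) (β ᵥ* M)) (by omega) (by
        rw [Matrix.sub_mul, Matrix.trace_sub, htr, trace_outer, hB, sub_zero])
      refine ⟨Fin.cons (M *ᵥ y) u, Fin.cons (β ᵥ* M) v, fun k => ?_, ?_⟩
      · refine Fin.cases ?_ (fun k => ?_) k
        · exact hB
        · exact huv k
      · rw [Fin.sum_univ_succ]
        simp only [Fin.cons_zero, Fin.cons_succ]
        rw [← hsum]
        abel

end Pool.Agent.Lib.MP_e005b4_ag
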